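import Mathlib

/-!
# AKX, module Blf: Blichfeldt's theorem, many points (helper19)

PROOF.  Let `C = Set.Ico 0 1 ^ ι`, of volume `1`; the translates of `C` by the integer vectors `e` are disjoint and cover `ℝ ^ ι`
(coordinatewise floor).  So `volume B = ∑'_e volume (B ∩ (C + e)) = ∑'_e volume ((B - e) ∩ C) =
∫⁻_{x ∈ C} (number of e with e + x ∈ B) dx` (`lintegral_tsum` or, as `B` is bounded, only the `e` in a finite box `E` matter:
`B ⊆ closed ball of radius K`, `|e j| ≤ K + 1`; then finite sums: `lintegral_finset_sum`, `measure_iUnion`/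
`measure_biUnion_finset`).  If for all `x ∈ C` the number of the `e ∈ E` with `e + x ∈ B` is at most `M`, then `volume B ≤ M`.
Take `x ∈ C` for which the number is maximal (the numbers are at most `E.card`), and `G` the set of these `e`.
(The translation invariance of the volume: `measure_preimage_add_right`.)
-/

open MeasureTheory

namespace AKX

theorem blichfeldt {ι : Type} [Fintype ι] {B : Set (ι → ℝ)} (hB : MeasurableSet B)
    (hb : Bornology.IsBounded B) :
    ∃ (x : ι → ℝ) (G : Finset (ι → ℤ)), (∀ e ∈ G, (fun j => (e j : ℝ) + x j) ∈ B) ∧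
      (volume B).toReal ≤ (G.card : ℝ) := by
  classical
  by_contra hcon
  push Not at hcon
  obtain ⟨K, hK⟩ := (Metric.isBounded_iff_subset_closedBall (0 : ι → ℝ)).1 hb
  obtain ⟨N, hN⟩ : ∃ N : ℤ, N = ⌈|K|⌉ + 1 := ⟨_, rfl⟩
  obtain ⟨E, hE⟩ : ∃ E : Finset (ι → ℤ), E = Fintype.piFinset fun _ => Finset.Icc (-N) N :=
    ⟨_, rfl⟩
  obtain ⟨C, hC⟩ : ∃ C : Set (ι → ℝ), C = Set.univ.pi fun _ => Set.Ico (0 : ℝ) 1 := ⟨_, rfl⟩
  obtain ⟨S, hSd⟩ : ∃ S : (ι → ℤ) → Set (ι → ℝ),
      S = fun e => {x | (fun j => (e j : ℝ) + x j) ∈ B} := ⟨_, rfl⟩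
  have hS : ∀ e, MeasurableSet (S e) := by
    intro e
    rw [hSd]
    have : Measurable fun (x : ι → ℝ) (j : ι) => (e j : ℝ) + x j := by fun_prop
    exact this hB
  have hCv : volume C = 1 := by
    rw [hC, volume_pi_pi]
    simp
  have hcov : B ⊆ ⋃ e ∈ E, (fun x : ι → ℝ => x + fun j => -(e j : ℝ)) ⁻¹' (C ∩ S e) := by
    intro x hx
    rw [Set.mem_iUnion₂]
    refine ⟨fun j => ⌊x j⌋, ?_, ?_, ?_⟩
    · rw [hE, Fintype.mem_piFinset]
      intro j
      have h1 := hK hx
      rw [mem_closedBall_zero_iff] at h1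
      have h2 := (norm_le_pi_norm x j).trans (h1.trans (le_abs_self K))
      rw [Real.norm_eq_abs, abs_le] at h2
      have h3 : |K| ≤ (⌈|K|⌉ : ℝ) := Int.le_ceil _
      rw [Finset.mem_Icc]
      constructor
      · rw [Int.le_floor, hN]
        push_cast
        linarith
      · have h4 : (⌊x j⌋ : ℝ) ≤ x j := Int.floor_le _
        have h5 : (⌊x j⌋ : ℝ) ≤ (N : ℝ) := by
          rw [hN]
          push_cast
          linarith
        exact_mod_cast h5
    · rw [hC]
      intro j _
      show x j + -((⌊x j⌋ : ℤ) : ℝ) ∈ Set.Ico (0 : ℝ) 1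
      have h4 : (⌊x j⌋ : ℝ) ≤ x j := Int.floor_le _
      have h5 : x j < (⌊x j⌋ : ℝ) + 1 := Int.lt_floor_add_one _
      exact ⟨by linarith, by linarith⟩
    · rw [hSd]
      show (fun j => ((⌊x j⌋ : ℤ) : ℝ) + (x j + -((⌊x j⌋ : ℤ) : ℝ))) ∈ B
      have : (fun j => ((⌊x j⌋ : ℤ) : ℝ) + (x j + -((⌊x j⌋ : ℤ) : ℝ))) = x := by
        funext j
        ring
      rw [this]
      exact hx
  have h1 : volume B ≤ ∑ e ∈ E, volume (C ∩ S e) := by
    refine (measure_mono hcov).trans ((measure_biUnion_finset_le _ _).trans ?_)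
    refine Finset.sum_le_sum fun e _ => le_of_eq ?_
    exact measure_preimage_add_right volume _ _
  have h2 : ∑ e ∈ E, volume (C ∩ S e) =
      ∫⁻ x in C, ∑ e ∈ E, (S e).indicator (1 : (ι → ℝ) → ENNReal) x := by
    rw [lintegral_finsetSum _ fun e _ => measurable_one.indicator (hS e)]
    refine Finset.sum_congr rfl fun e _ => ?_
    rw [lintegral_indicator_one (hS e), Measure.restrict_apply (hS e), Set.inter_comm]
  have hv0 : 0 < (volume B).toReal := by
    have := hcon 0 ∅ (by simp)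
    simpa using this
  obtain ⟨m, hm⟩ : ∃ m : ℕ, m + 1 = ⌈(volume B).toReal⌉₊ :=
    ⟨⌈(volume B).toReal⌉₊ - 1, Nat.succ_pred_eq_of_pos (Nat.ceil_pos.2 hv0)⟩
  have hmv : (m : ℝ) < (volume B).toReal := by
    have h3 := Nat.ceil_lt_add_one hv0.le
    rw [← hm] at h3
    push_cast at h3
    linarith
  have h3 : ∀ x, ∑ e ∈ E, (S e).indicator (1 : (ι → ℝ) → ENNReal) x ≤ (m : ENNReal) := by
    intro x
    have h4 : ∑ e ∈ E, (S e).indicator (1 : (ι → ℝ) → ENNReal) x =
        ((E.filter fun e => x ∈ S e).card : ENNReal) := by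
      rw [Finset.card_filter]
      push_cast
      refine Finset.sum_congr rfl fun e _ => ?_
      rw [Set.indicator_apply]
      rfl
    rw [h4]
    have h5 := hcon x (E.filter fun e => x ∈ S e) (fun e he => by
      have h6 := (Finset.mem_filter.1 he).2
      rw [hSd] at h6
      exact h6)
    have h6 := Nat.lt_ceil.2 h5
    rw [← hm] at h6
    exact_mod_cast Nat.le_of_lt_succ h6
  have h4 : volume B ≤ (m : ENNReal) := by
    refine h1.trans ?_
    rw [h2]
    refine (lintegral_mono h3).trans ?_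
    rw [lintegral_const, Measure.restrict_apply MeasurableSet.univ, Set.univ_inter, hCv, mul_one]
  have h5 := ENNReal.toReal_mono (ENNReal.natCast_ne_top m) h4
  rw [ENNReal.toReal_natCast] at h5
  linarith

end AKX
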