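import Pool.Agent.AKX.Defs
import Pool.Agent.AKW.Dist

/-!
# AKX, module Dist: congruent products are far apart (helper19)

PROOFS (compare `Pool/Agent/AKW/Dist.lean` and `AKW.log_norm_CS`).
* `log_norm_CE`: product over `k` of the case `S = {k + 1}` of `AKW.log_norm_CS`.
* `CE_ne`: if `aeval (zt r) (CE r e) = aeval (zt r) (CE r e')` then by `aeval_conj` the same at all the `zt r ^ a`, so
  `xe r e a = xe r e' a` for all `a`, and `indep` with `j ↦ e (j - 1) - e' (j - 1)` gives `e = e'`.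
* `farE`: let `s = ∑ k, e k = ∑ k, e' k`.  `X - 1` divides every `Lam r j`, so `CE r e - CE r e' = (X - 1) ^ s * P` with
  `P : ℤ[X]`.  `P` vanishes at the `z ^ a` (`z ^ a ≠ 1`) and `aeval (zt r) P ≠ 0` (`CE_ne`).  By `nrm_ge`, with `ζ = zt r`:
  `(r - 1) log p ≤ ∑_a log ‖P (ζ ^ a)‖ = ∑_a log ‖(CE r e - CE r e') (ζ ^ a)‖ - s ∑_a log ‖ζ ^ a - 1‖`, the last sum is `log r`
  (`log_norm_sub_one`, `sum_hz`), and `‖(CE r e - CE r e') (ζ ^ a)‖ ≤ 2 max (exp (x a), exp (x' a))`, `x = xe r e`,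
  `x' = xe r e'`.  So `(r - 1) log p ≤ (r - 1) log 2 + ∑_a max (x a) (x' a) - s log r`,
  `max (x, x') = (x + x') / 2 + |x - x'| / 2`, `∑_a x a = s log r` (`sum_hz_mul`).
-/

open Polynomial AKW

namespace AKX

private theorem mem_Icc {r : ℕ} (k : Fin ((r - 1) / 2)) : (k : ℕ) + 1 ∈ Finset.Icc 1 ((r - 1) / 2) := by
  rw [Finset.mem_Icc]
  have := k.2
  omega

private theorem log_norm_Lam {r : ℕ} [Fact r.Prime] (k : Fin ((r - 1) / 2)) (a : (ZMod r)ˣ) :
    aeval (zt r ^ (a : ZMod r).val) (Lam r ((k : ℕ) + 1)) ≠ 0 ∧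
      Real.log ‖aeval (zt r ^ (a : ZMod r).val) (Lam r ((k : ℕ) + 1))‖ =
        hz r ((a : ZMod r) * (((k : ℕ) + 1 : ℕ) : ZMod r)) := by
  have h := log_norm_CS (r := r) (S := {(k : ℕ) + 1})
    (by rw [Finset.singleton_subset_iff]; exact mem_Icc k) a
  unfold CS xs at h
  rwa [Finset.prod_singleton, Finset.sum_singleton] at h

theorem log_norm_CE {r : ℕ} [Fact r.Prime] (e : Fin ((r - 1) / 2) → ℕ) (a : (ZMod r)ˣ) :
    aeval (zt r ^ (a : ZMod r).val) (CE r e) ≠ 0 ∧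
      Real.log ‖aeval (zt r ^ (a : ZMod r).val) (CE r e)‖ = xe r e (a : ZMod r) := by
  have haeval : aeval (zt r ^ (a : ZMod r).val) (CE r e) = ∏ k : Fin ((r - 1) / 2),
      aeval (zt r ^ (a : ZMod r).val) (Lam r ((k : ℕ) + 1)) ^ e k := by
    unfold CE
    rw [map_prod]
    refine Finset.prod_congr rfl fun k _ => ?_
    rw [map_pow]
  have hne : ∀ k ∈ (Finset.univ : Finset (Fin ((r - 1) / 2))),
      aeval (zt r ^ (a : ZMod r).val) (Lam r ((k : ℕ) + 1)) ^ e k ≠ 0 := fun k _ =>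
    pow_ne_zero _ (log_norm_Lam k a).1
  rw [haeval]
  refine ⟨Finset.prod_ne_zero_iff.2 hne, ?_⟩
  rw [norm_prod, Real.log_prod fun k hk => norm_ne_zero_iff.2 (hne k hk)]
  unfold xe
  refine Finset.sum_congr rfl fun k _ => ?_
  rw [norm_pow, Real.log_pow, (log_norm_Lam k a).2]

theorem sum_xe {r : ℕ} [Fact r.Prime] (e : Fin ((r - 1) / 2) → ℕ) :
    ∑ a : (ZMod r)ˣ, xe r e (a : ZMod r) = (∑ k, e k : ℕ) * Real.log r := by
  unfold xe
  rw [Finset.sum_comm, Nat.cast_sum, Finset.sum_mul]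
  refine Finset.sum_congr rfl fun k _ => ?_
  rw [← Finset.mul_sum, sum_hz_mul (mem_Icc k)]

private theorem sum_fin (d : ℕ) (f : ℕ → ℝ) :
    ∑ j ∈ Finset.Icc 1 d, f j = ∑ k : Fin d, f ((k : ℕ) + 1) := by
  rw [Fin.sum_univ_eq_sum_range (fun i => f (i + 1)) d, Finset.range_eq_Ico,
    Finset.sum_Ico_add' f 0 d 1]
  congr 1

theorem CE_ne {r : ℕ} [Fact r.Prime] (hr2 : r ≠ 2) {e e' : Fin ((r - 1) / 2) → ℕ} (hne : e ≠ e') :
    aeval (zt r) (CE r e) ≠ aeval (zt r) (CE r e') := by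
  intro heq
  apply hne
  have hx : ∀ a : (ZMod r)ˣ, xe r e (a : ZMod r) = xe r e' (a : ZMod r) := by
    intro a
    rw [← (log_norm_CE e a).2, ← (log_norm_CE e' a).2, aeval_conj zt_prim heq a]
  have hg : ∀ k : Fin ((r - 1) / 2), (if h : ((k : ℕ) + 1) - 1 < (r - 1) / 2 then
      ((e ⟨((k : ℕ) + 1) - 1, h⟩ : ℝ) - (e' ⟨((k : ℕ) + 1) - 1, h⟩ : ℝ)) else 0) =
      (e k : ℝ) - (e' k : ℝ) := by
    intro k
    have hk : ((k : ℕ) + 1) - 1 < (r - 1) / 2 := by
      have := k.2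
      omega
    rw [dif_pos hk]
    have hk2 : (⟨((k : ℕ) + 1) - 1, hk⟩ : Fin ((r - 1) / 2)) = k := by
      apply Fin.ext
      simp
    rw [hk2]
  have h0 := indep hr2 (fun j => if h : j - 1 < (r - 1) / 2 then
      ((e ⟨j - 1, h⟩ : ℝ) - (e' ⟨j - 1, h⟩ : ℝ)) else 0) (by
    intro a
    rw [sum_fin]
    simp only [hg]
    have h3 := hx a
    unfold xe at h3
    simp only [sub_mul]
    rw [Finset.sum_sub_distrib, h3, sub_self])
  funext k
  have h1 := h0 _ (mem_Icc k)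
  have h2 := hg k
  rw [h1] at h2
  have h3 : (e k : ℝ) = (e' k : ℝ) := by linarith
  exact_mod_cast h3

private theorem dvd_CE (r : ℕ) (e : Fin ((r - 1) / 2) → ℕ) : (X - 1 : ℤ[X]) ^ (∑ k, e k) ∣ CE r e := by
  unfold CE
  rw [← Finset.prod_pow_eq_pow_sum]
  refine Finset.prod_dvd_prod_of_dvd _ _ fun k _ => ?_
  refine pow_dvd_pow_of_dvd ?_ _
  unfold Lam
  have h := sub_dvd_pow_sub_pow (X : ℤ[X]) 1 ((k : ℕ) + 1)
  rw [one_pow] at h
  exact Dvd.dvd.mul_left h _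

theorem farE {r p : ℕ} [Fact r.Prime] [Fact p.Prime] (hr2 : r ≠ 2) {F : Type} [Field F] [CharP F p]
    {z : F} (hz : IsPrimitiveRoot z r) {e e' : Fin ((r - 1) / 2) → ℕ} (hne : e ≠ e')
    (hsum : ∑ k, e k = ∑ k, e' k)
    (heq : ∀ a : (ZMod r)ˣ,
      aeval (z ^ (a : ZMod r).val) (CE r e) = aeval (z ^ (a : ZMod r).val) (CE r e')) :
    ((r : ℝ) - 1) * Real.log (p / 2) ≤
      (∑ a : (ZMod r)ˣ, |xe r e (a : ZMod r) - xe r e' (a : ZMod r)|) / 2 := by
  have hr := (Fact.out : r.Prime)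
  have hp := (Fact.out : p.Prime)
  have hdvd : (X - 1 : ℤ[X]) ^ (∑ k, e k) ∣ CE r e - CE r e' :=
    dvd_sub (dvd_CE r e) (by rw [hsum]; exact dvd_CE r e')
  obtain ⟨P, hP⟩ := hdvd
  have hev : ∀ {R : Type} [CommRing R] (y : R), aeval y (CE r e) - aeval y (CE r e') =
      (y - 1) ^ (∑ k, e k) * aeval y P := by
    intro R _ y
    have := congrArg (aeval y) hP
    simpa using this
  have hone : ∀ {R : Type} [CommRing R] [IsDomain R] {w : R} (hw : IsPrimitiveRoot w r) (a : (ZMod r)ˣ),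
      w ^ (a : ZMod r).val - 1 ≠ 0 := by
    intro R _ _ w hw a h
    have h1 : IsPrimitiveRoot (w ^ (a : ZMod r).val) r := hw.pow_of_coprime _ (ZMod.val_coe_unit_coprime a)
    exact h1.ne_one hr.one_lt (sub_eq_zero.1 h)
  have hPz : ∀ a : (ZMod r)ˣ, aeval (z ^ (a : ZMod r).val) P = 0 := by
    intro a
    have h1 := hev (z ^ (a : ZMod r).val)
    rw [heq a, sub_self] at h1
    rcases mul_eq_zero.1 h1.symm with h2 | h2
    · exact absurd h2 (pow_ne_zero _ (hone hz a))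
    · exact h2
  have hPne : aeval (zt r) P ≠ 0 := by
    intro h
    have h1 := hev (zt r)
    rw [h, mul_zero] at h1
    exact CE_ne hr2 hne (sub_eq_zero.1 h1)
  have hnrm := nrm_ge hz hPz zt_prim hPne
  have hPa : ∀ a : (ZMod r)ˣ, aeval (zt r ^ (a : ZMod r).val) P ≠ 0 := by
    intro a
    have h1 : aeval (zt r) P ≠ aeval (zt r) (0 : ℤ[X]) := by rwa [map_zero]
    have h2 := aeval_conj_ne zt_prim h1 a
    rwa [map_zero] at h2
  have hlogP : ((r : ℝ) - 1) * Real.log p ≤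
      ∑ a : (ZMod r)ˣ, Real.log ‖aeval (zt r ^ (a : ZMod r).val) P‖ := by
    have hp0 : (0 : ℝ) < p := by exact_mod_cast hp.pos
    have h1 := Real.log_le_log (by positivity) hnrm
    rw [Real.log_pow, Real.log_prod (fun a _ => norm_ne_zero_iff.2 (hPa a)), Nat.cast_sub hr.one_le,
      Nat.cast_one] at h1
    exact h1
  have hterm : ∀ a : (ZMod r)ˣ, Real.log ‖aeval (zt r ^ (a : ZMod r).val) P‖ ≤
      Real.log 2 + ((xe r e (a : ZMod r) + xe r e' (a : ZMod r)) / 2 +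
        |xe r e (a : ZMod r) - xe r e' (a : ZMod r)| / 2) -
        (∑ k, e k : ℕ) * AKW.hz r (a : ZMod r) := by
    intro a
    obtain ⟨hc1, hc2⟩ := log_norm_CE e a
    obtain ⟨hc1', hc2'⟩ := log_norm_CE e' a
    have h1 := hev (zt r ^ (a : ZMod r).val)
    have hy : zt r ^ (a : ZMod r).val - 1 ≠ 0 := hone zt_prim a
    have h2 : Real.log ‖aeval (zt r ^ (a : ZMod r).val) (CE r e) -
        aeval (zt r ^ (a : ZMod r).val) (CE r e')‖ =
        (∑ k, e k : ℕ) * AKW.hz r (a : ZMod r) +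
          Real.log ‖aeval (zt r ^ (a : ZMod r).val) P‖ := by
      rw [h1, norm_mul, norm_pow, Real.log_mul (pow_ne_zero _ (norm_ne_zero_iff.2 hy))
        (norm_ne_zero_iff.2 (hPa a)), Real.log_pow, log_norm_sub_one]
    have hD : aeval (zt r ^ (a : ZMod r).val) (CE r e) -
        aeval (zt r ^ (a : ZMod r).val) (CE r e') ≠ 0 := by
      rw [h1]
      exact mul_ne_zero (pow_ne_zero _ hy) (hPa a)
    have h3 : ‖aeval (zt r ^ (a : ZMod r).val) (CE r e) -
        aeval (zt r ^ (a : ZMod r).val) (CE r e')‖ ≤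
        2 * Real.exp (max (xe r e (a : ZMod r)) (xe r e' (a : ZMod r))) := by
      have e1 : ‖aeval (zt r ^ (a : ZMod r).val) (CE r e)‖ ≤
          Real.exp (max (xe r e (a : ZMod r)) (xe r e' (a : ZMod r))) := by
        rw [← Real.exp_log (norm_pos_iff.2 hc1), hc2]
        exact Real.exp_le_exp.2 (le_max_left _ _)
      have e2 : ‖aeval (zt r ^ (a : ZMod r).val) (CE r e')‖ ≤
          Real.exp (max (xe r e (a : ZMod r)) (xe r e' (a : ZMod r))) := by
        rw [← Real.exp_log (norm_pos_iff.2 hc1'), hc2']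
        exact Real.exp_le_exp.2 (le_max_right _ _)
      have e3 := norm_sub_le (aeval (zt r ^ (a : ZMod r).val) (CE r e))
        (aeval (zt r ^ (a : ZMod r).val) (CE r e'))
      linarith
    have h4 := Real.log_le_log (norm_pos_iff.2 hD) h3
    rw [Real.log_mul (by norm_num) (Real.exp_pos _).ne', Real.log_exp, h2] at h4
    have h5 : max (xe r e (a : ZMod r)) (xe r e' (a : ZMod r)) =
        (xe r e (a : ZMod r) + xe r e' (a : ZMod r)) / 2 +
        |xe r e (a : ZMod r) - xe r e' (a : ZMod r)| / 2 := by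
      rcases le_total (xe r e (a : ZMod r)) (xe r e' (a : ZMod r)) with h | h
      · rw [max_eq_right h, abs_of_nonpos (by linarith)]
        ring
      · rw [max_eq_left h, abs_of_nonneg (by linarith)]
        ring
    rw [h5] at h4
    linarith
  have hsum' := le_trans hlogP (Finset.sum_le_sum fun a _ => hterm a)
  rw [Finset.sum_sub_distrib, Finset.sum_add_distrib, Finset.sum_const, Finset.card_univ, ZMod.card_units,
    nsmul_eq_mul, Finset.sum_add_distrib, ← Finset.sum_div, Finset.sum_add_distrib, sum_xe, sum_xe,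
    ← Finset.sum_div, ← Finset.mul_sum, sum_hz, Nat.cast_sub hr.one_le, Nat.cast_one, ← hsum] at hsum'
  have hp0 : (p : ℝ) ≠ 0 := by exact_mod_cast hp.ne_zero
  rw [Real.log_div hp0 (by norm_num)]
  linarith

end AKX
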