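import Mathlib

/-!
# AKX, module Vol: the volume of the body `∑ |(A x) a| < R` (helper19)

PROOF.  `l1_vol`: `MeasureTheory.volume_sum_rpow_lt` with `p = 1` (`Real.rpow_one`; `Γ (1 / 1 + 1) = Γ 2 = 1`,
`Γ (n / 1 + 1) = n !`: `Real.Gamma_nat_eq_factorial`).  The body is the preimage of the `ℓ¹` ball under the linear map
`Matrix.toLin' A` with determinant `A.det`: `Real.map_matrix_volume_pi_eq_smul_volume_pi` or
`MeasureTheory.Measure.addHaar_preimage_linearMap` (`LinearMap.det_toLin'`).  It is open (continuity), so measurable; it is bounded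
because `x = A⁻¹ (A x)` and the `ℓ¹` ball is bounded (a linear map on a finite-dimensional space is Lipschitz).
-/

open MeasureTheory

namespace AKX

/-- The body. -/
def body {n : ℕ} (A : Matrix (Fin n) (Fin n) ℝ) (R : ℝ) : Set (Fin n → ℝ) :=
  {x | ∑ a, |A.mulVec x a| < R}

theorem measurable_body {n : ℕ} (A : Matrix (Fin n) (Fin n) ℝ) (R : ℝ) :
    MeasurableSet (body A R) := by
  have hc : Continuous fun x : Fin n → ℝ => ∑ a, |A.mulVec x a| := by
    refine continuous_finsetSum _ fun a _ => ?_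
    exact ((continuous_apply a).comp (Continuous.matrix_mulVec continuous_const continuous_id)).abs
  exact (isOpen_lt hc continuous_const).measurableSet

theorem bounded_body {n : ℕ} {A : Matrix (Fin n) (Fin n) ℝ} (hA : A.det ≠ 0) (R : ℝ) :
    Bornology.IsBounded (body A R) := by
  have hunit : IsUnit A.det := isUnit_iff_ne_zero.2 hA
  let L : (Fin n → ℝ) →L[ℝ] (Fin n → ℝ) := LinearMap.toContinuousLinearMap (Matrix.toLin' A⁻¹)
  have hsub : body A R ⊆ L '' Metric.closedBall 0 R := by
    intro x hx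
    have hx' : ∑ a, |A.mulVec x a| < R := hx
    refine ⟨A.mulVec x, ?_, ?_⟩
    · have hR : 0 ≤ R := (Finset.sum_nonneg fun a _ => abs_nonneg _).trans hx'.le
      rw [mem_closedBall_zero_iff, pi_norm_le_iff_of_nonneg hR]
      intro a
      rw [Real.norm_eq_abs]
      exact (Finset.single_le_sum (f := fun a => |A.mulVec x a|) (fun a _ => abs_nonneg _)
        (Finset.mem_univ a)).trans hx'.le
    · show Matrix.toLin' A⁻¹ (A.mulVec x) = x
      rw [Matrix.toLin'_apply, Matrix.mulVec_mulVec, Matrix.nonsing_inv_mul A hunit,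
        Matrix.one_mulVec]
  exact (L.lipschitz.isBounded_image Metric.isBounded_closedBall).subset hsub

theorem vol_body {n : ℕ} (hn : 0 < n) {A : Matrix (Fin n) (Fin n) ℝ} (hA : A.det ≠ 0) {R : ℝ}
    (hR : 0 < R) : (volume (body A R)).toReal = (2 * R) ^ n / (n.factorial * |A.det|) := by
  have : Nonempty (Fin n) := ⟨⟨0, hn⟩⟩
  have h1 := volume_sum_rpow_lt (Fin n) (p := 1) le_rfl R
  have h2 : {x : Fin n → ℝ | (∑ i, |x i| ^ (1 : ℝ)) ^ (1 / (1 : ℝ)) < R} =
      {x | ∑ i, |x i| < R} := by
    ext x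
    simp only [Real.rpow_one, div_one, Set.mem_ofPred_eq]
  rw [h2, Fintype.card_fin] at h1
  have hG1 : Real.Gamma (1 / 1 + 1) = 1 := by
    rw [div_one, one_add_one_eq_two, Real.Gamma_two]
  have hG2 : Real.Gamma ((n : ℝ) / 1 + 1) = n.factorial := by
    rw [div_one, Real.Gamma_nat_eq_factorial]
  rw [hG1, hG2, mul_one] at h1
  have h3 : body A R = (Matrix.toLin' A) ⁻¹' {x | ∑ i, |x i| < R} := by
    ext x
    simp only [body, Set.mem_preimage, Set.mem_ofPred_eq, Matrix.toLin'_apply]
  have hdet : LinearMap.det (Matrix.toLin' A) ≠ 0 := by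
    rw [LinearMap.det_toLin']
    exact hA
  have hfac : (0 : ℝ) < n.factorial := by exact_mod_cast n.factorial_pos
  rw [h3, MeasureTheory.Measure.addHaar_preimage_linearMap volume hdet, LinearMap.det_toLin', h1,
    ENNReal.toReal_mul, ENNReal.toReal_mul, ENNReal.toReal_pow, ENNReal.toReal_ofReal (abs_nonneg _),
    ENNReal.toReal_ofReal hR.le, ENNReal.toReal_ofReal (by positivity), abs_inv, mul_pow]
  have hA' : |A.det| ≠ 0 := abs_ne_zero.2 hA
  field_simp

end AKX
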