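import Pool.Agent.AKX.Det
import Pool.Agent.AKX.Blf
import Pool.Agent.AKX.Vol

/-!
# AKX, module Sel: many exponent vectors with close logarithms (helper19)

PROOF of `selE`.  `d = (r - 1) / 2 ≥ 1`, `R = d L`, `A = Hm r`, `2 d = r - 1`.
(1) `blichfeldt` for `body A R` (`measurable_body`, `bounded_body`, `det_ne_zero`, `vol_body`): `x` and a finite set `G₀` of integer
vectors `e` with `∑_a |(A (e + x)) a| < R` and `(2 R) ^ d / (d ! |det A|) ≤ G₀.card`.
(2) `sum_half`: for an even function `F` on `ZMod r` the sum over the units is twice the sum over `1, …, d`.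
(3) For `e ∈ G₀`: `(∑_k (e k + x k)) log r = ∑_{a unit} ∑_k (e k + x k) hz (a (k + 1)) = 2 ∑_{a : Fin d} (A (e + x)) a` (`sum_hz_mul`,
`sum_half`), so `|∑_k e k + ∑_k x k| log r < 2 R`, and `log r ≥ 1` (`r ≥ 3`, `exp 1 < 3`): the integer `∑_k e k` lies in an open
interval of length `4 R`, in which there are at most `4 R + 1` integers.  By the pigeonhole principle some value `s` is taken by a
subset `G₁ ⊆ G₀` with `G₀.card ≤ (4 R + 1) G₁.card` (`Finset.exists_le_card_fiber_of_mul_le_card_of_maps_to`, or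
`Finset.card_eq_sum_card_fiberwise`).
(4) Shift: `M : ℕ` with `e k + M ≥ 0` for all `e ∈ G₁`, `k`; `G` is the image of `G₁` under `e ↦ (fun k => (e k + M).toNat)`, injective on
`G₁`.  `xe r e' a` for `e' = e + M` differs from `∑_k e k hz (a (k + 1))` by a number which does not depend on `e`; so for
`e, f ∈ G₁`: `∑_{a unit} |xe a - xe' a| = 2 ∑_{a : Fin d} |(A (e - f)) a| ≤ 2 (∑ |(A (e + x)) a| + ∑ |(A (f + x)) a|) < 4 R`, and half of
it is `< 2 R = (r - 1) L`.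
-/

open AKW

namespace AKX

private theorem sum_units {r : ℕ} [Fact r.Prime] (F : ZMod r → ℝ) :
    ∑ a : (ZMod r)ˣ, F (a : ZMod r) = ∑ k ∈ Finset.range (r - 1), F ((k + 1 : ℕ) : ZMod r) := by
  have hr : r.Prime := Fact.out
  have : NeZero r := ⟨hr.ne_zero⟩
  have hr1 := hr.one_lt
  refine Finset.sum_nbij (fun a => (a : ZMod r).val - 1) ?_ ?_ ?_ ?_
  · intro a _
    have h6 : (a : ZMod r).val ≠ 0 := fun h => a.ne_zero ((ZMod.val_eq_zero _).1 h)
    have h7 := ZMod.val_lt (a : ZMod r)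
    rw [Finset.mem_range]
    omega
  · intro a _ b _ hab
    have h6 : (a : ZMod r).val ≠ 0 := fun h => a.ne_zero ((ZMod.val_eq_zero _).1 h)
    have h7 : (b : ZMod r).val ≠ 0 := fun h => b.ne_zero ((ZMod.val_eq_zero _).1 h)
    have h8 : (a : ZMod r).val - 1 = (b : ZMod r).val - 1 := hab
    exact Units.ext (ZMod.val_injective r (by omega))
  · intro k hk
    have hk' : k < r - 1 := Finset.mem_range.1 (Finset.mem_coe.1 hk)
    have h6 : (k + 1).Coprime r := (Nat.coprime_of_lt_prime (by omega) (by omega) hr).symm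
    refine ⟨ZMod.unitOfCoprime (k + 1) h6, Finset.mem_coe.2 (Finset.mem_univ _), ?_⟩
    show ((ZMod.unitOfCoprime (k + 1) h6 : (ZMod r)ˣ) : ZMod r).val - 1 = k
    rw [ZMod.coe_unitOfCoprime, ZMod.val_natCast, Nat.mod_eq_of_lt (by omega)]
    omega
  · intro a _
    have h6 : (a : ZMod r).val ≠ 0 := fun h => a.ne_zero ((ZMod.val_eq_zero _).1 h)
    show F (a : ZMod r) = F ((((a : ZMod r).val - 1 + 1 : ℕ) : ZMod r))
    rw [Nat.sub_add_cancel (Nat.one_le_iff_ne_zero.2 h6), ZMod.natCast_zmod_val]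

private theorem two_half {r : ℕ} [Fact r.Prime] (hr2 : r ≠ 2) :
    r = 2 * ((r - 1) / 2) + 1 ∧ 1 ≤ (r - 1) / 2 := by
  have hr : r.Prime := Fact.out
  have h1 := hr.eq_two_or_odd.resolve_left hr2
  have h2 := hr.two_le
  omega

theorem sum_half {r : ℕ} [Fact r.Prime] (hr2 : r ≠ 2) (F : ZMod r → ℝ) (hF : ∀ x, F (-x) = F x) :
    ∑ a : (ZMod r)ˣ, F (a : ZMod r) = 2 * ∑ k : Fin ((r - 1) / 2), F (((k : ℕ) + 1 : ℕ) : ZMod r) := by
  obtain ⟨h1, -⟩ := two_half hr2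
  rw [sum_units]
  have h2 : r - 1 = (r - 1) / 2 + (r - 1) / 2 := by omega
  have h3 : ∑ k ∈ Finset.range (r - 1), F ((k + 1 : ℕ) : ZMod r) =
      ∑ k ∈ Finset.range ((r - 1) / 2 + (r - 1) / 2), F ((k + 1 : ℕ) : ZMod r) := by
    rw [← h2]
  rw [h3, Finset.sum_range_add]
  have h4 : ∑ k ∈ Finset.range ((r - 1) / 2), F (((r - 1) / 2 + k + 1 : ℕ) : ZMod r) =
      ∑ k ∈ Finset.range ((r - 1) / 2), F ((k + 1 : ℕ) : ZMod r) := by
    rw [← Finset.sum_range_reflect]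
    refine Finset.sum_congr rfl fun k hk => ?_
    rw [Finset.mem_range] at hk
    rw [← hF]
    congr 1
    have h5 : ((((r - 1) / 2 + ((r - 1) / 2 - 1 - k) + 1 : ℕ) : ZMod r)) +
        ((k + 1 : ℕ) : ZMod r) = 0 := by
      rw [← Nat.cast_add]
      have h6 : (r - 1) / 2 + ((r - 1) / 2 - 1 - k) + 1 + (k + 1) = r := by omega
      rw [h6]
      exact ZMod.natCast_self r
    linear_combination -h5
  rw [h4, Finset.sum_range]
  ring

/-- `∑_k y k hz (a (k + 1))` -/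
private noncomputable def SS (r : ℕ) (y : Fin ((r - 1) / 2) → ℝ) (a : ZMod r) : ℝ :=
  ∑ k : Fin ((r - 1) / 2), y k * hz r (a * (((k : ℕ) + 1 : ℕ) : ZMod r))

private theorem SS_neg {r : ℕ} [Fact r.Prime] (y : Fin ((r - 1) / 2) → ℝ) (a : ZMod r) :
    SS r y (-a) = SS r y a := by
  unfold SS
  refine Finset.sum_congr rfl fun k _ => ?_
  rw [neg_mul, hz_neg]

private theorem SS_mulVec {r : ℕ} (y : Fin ((r - 1) / 2) → ℝ) (a : Fin ((r - 1) / 2)) :
    (Hm r).mulVec y a = SS r y (((a : ℕ) + 1 : ℕ) : ZMod r) := by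
  unfold SS Hm
  simp only [Matrix.mulVec, dotProduct, Matrix.of_apply]
  exact Finset.sum_congr rfl fun k _ => mul_comm _ _

private theorem SS_sum {r : ℕ} [Fact r.Prime] (y : Fin ((r - 1) / 2) → ℝ) :
    ∑ a : (ZMod r)ˣ, SS r y (a : ZMod r) = (∑ k, y k) * Real.log r := by
  unfold SS
  rw [Finset.sum_comm, Finset.sum_mul]
  refine Finset.sum_congr rfl fun k _ => ?_
  rw [← Finset.mul_sum, sum_hz_mul (Finset.mem_Icc.2 ⟨by omega, by have := k.2; omega⟩)]

private theorem SS_bound {r : ℕ} [Fact r.Prime] (hr2 : r ≠ 2) {y : Fin ((r - 1) / 2) → ℝ} {R : ℝ}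
    (h : ∑ a, |(Hm r).mulVec y a| < R) : |∑ k, y k| < 2 * R := by
  have hr : r.Prime := Fact.out
  have h1 := SS_sum (r := r) y
  rw [sum_half hr2 (SS r y) (SS_neg y)] at h1
  have h2 : ∑ k : Fin ((r - 1) / 2), SS r y (((k : ℕ) + 1 : ℕ) : ZMod r) =
      ∑ k, (Hm r).mulVec y k := Finset.sum_congr rfl fun k _ => (SS_mulVec y k).symm
  rw [h2] at h1
  have h3 : |∑ k, (Hm r).mulVec y k| < R :=
    (Finset.abs_sum_le_sum_abs _ _).trans_lt h
  have h4 : 1 ≤ Real.log r := by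
    rw [Real.le_log_iff_exp_le (by exact_mod_cast hr.pos)]
    have h5 : (3 : ℝ) ≤ r := by
      have h6 := hr.two_le
      have h7 : 3 ≤ r := by omega
      exact_mod_cast h7
    have h8 := Real.exp_one_lt_d9
    linarith
  have h5 : |∑ k, y k| * Real.log r < 2 * R := by
    have h6 : |(∑ k, y k) * Real.log r| = |∑ k, y k| * Real.log r := by
      rw [abs_mul, abs_of_nonneg (a := Real.log r) (by linarith)]
    rw [← h6, ← h1, abs_mul, abs_of_pos (two_pos)]
    linarith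
  have h6 : |∑ k, y k| * 1 ≤ |∑ k, y k| * Real.log r :=
    mul_le_mul_of_nonneg_left h4 (abs_nonneg _)
  linarith

private theorem card_window {X T : ℝ} (hT : 0 < T) :
    ((Finset.Icc ⌈-X - T⌉ ⌊-X + T⌋).card : ℝ) ≤ 2 * T + 1 := by
  rw [Int.card_Icc]
  have h1 : ((⌊-X + T⌋ : ℤ) : ℝ) ≤ -X + T := Int.floor_le _
  have h2 : -X - T ≤ ((⌈-X - T⌉ : ℤ) : ℝ) := Int.le_ceil _
  rcases le_total 0 (⌊-X + T⌋ + 1 - ⌈-X - T⌉) with h3 | h3
  · have h4 : (((⌊-X + T⌋ + 1 - ⌈-X - T⌉).toNat : ℕ) : ℝ) =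
        ((⌊-X + T⌋ + 1 - ⌈-X - T⌉ : ℤ) : ℝ) := by
      rw [← Int.cast_natCast, Int.toNat_of_nonneg h3]
    rw [h4]
    push_cast
    linarith
  · rw [Int.toNat_of_nonpos h3]
    push_cast
    linarith

theorem selE {r : ℕ} [Fact r.Prime] (hr2 : r ≠ 2) {L : ℝ} (hL : 0 < L) :
    ∃ G : Finset (Fin ((r - 1) / 2) → ℕ), (∀ e ∈ G, ∀ e' ∈ G, ∑ k, e k = ∑ k, e' k) ∧
      (∀ e ∈ G, ∀ e' ∈ G, (∑ a : (ZMod r)ˣ, |xe r e (a : ZMod r) - xe r e' (a : ZMod r)|) / 2 <
        ((r : ℝ) - 1) * L) ∧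
      (2 * (((r - 1) / 2 : ℕ) : ℝ) * L) ^ ((r - 1) / 2) ≤
        (G.card : ℝ) * (4 * (((r - 1) / 2 : ℕ) : ℝ) * L + 1) *
          (((r - 1) / 2).factorial * |(Hm r).det|) := by
  classical
  obtain ⟨hrd, hd1⟩ := two_half hr2
  have hdet := det_ne_zero hr2
  have hd0 : (0 : ℝ) < (((r - 1) / 2 : ℕ) : ℝ) := by exact_mod_cast hd1
  set R : ℝ := (((r - 1) / 2 : ℕ) : ℝ) * L with hR
  have hR0 : 0 < R := mul_pos hd0 hL
  obtain ⟨x, G₀, hG₀, hvol⟩ := blichfeldt (measurable_body (Hm r) R) (bounded_body hdet R)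
  rw [vol_body hd1 hdet hR0] at hvol
  have hfd : (0 : ℝ) < ((r - 1) / 2).factorial * |(Hm r).det| :=
    mul_pos (by exact_mod_cast Nat.factorial_pos _) (abs_pos.2 hdet)
  -- the sums are in a window
  have hwin : ∀ e ∈ G₀, (∑ k, e k) ∈
      Finset.Icc ⌈-(∑ k, x k) - 2 * R⌉ ⌊-(∑ k, x k) + 2 * R⌋ := by
    intro e he
    have h1 := SS_bound hr2 (hG₀ e he)
    rw [Finset.sum_add_distrib, abs_lt] at h1
    rw [Finset.mem_Icc, Int.ceil_le, Int.le_floor]
    push_cast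
    constructor <;> linarith [h1.1, h1.2]
  set T := Finset.Icc ⌈-(∑ k, x k) - 2 * R⌉ ⌊-(∑ k, x k) + 2 * R⌋ with hT
  have hG₀ne : G₀.Nonempty := by
    rw [Finset.nonempty_iff_ne_empty]
    rintro rfl
    have h1 : 0 < (2 * R) ^ ((r - 1) / 2) / (((r - 1) / 2).factorial * |(Hm r).det|) :=
      div_pos (by positivity) hfd
    rw [Finset.card_empty, Nat.cast_zero] at hvol
    linarith
  obtain ⟨e₀, he₀⟩ := hG₀ne
  obtain ⟨s, hsT, hs⟩ := Finset.exists_max_image T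
    (fun b => (G₀.filter fun e => ∑ k, e k = b).card) ⟨_, hwin e₀ he₀⟩
  set G₁ := G₀.filter fun e => ∑ k, e k = s with hG₁
  have hcard : (G₀.card : ℝ) ≤ (4 * R + 1) * G₁.card := by
    have h1 := Finset.card_eq_sum_card_fiberwise (s := G₀) (t := T)
      (f := fun e : Fin ((r - 1) / 2) → ℤ => ∑ k, e k) (fun e he => hwin e he)
    have h2 : G₀.card ≤ T.card * G₁.card := by
      rw [h1, ← smul_eq_mul]
      exact Finset.sum_le_card_nsmul _ _ _ fun b hb => hs b hb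
    have h3 : (T.card : ℝ) ≤ 2 * (2 * R) + 1 := card_window (by positivity)
    have h4 : (G₀.card : ℝ) ≤ (T.card : ℝ) * G₁.card := by exact_mod_cast h2
    refine h4.trans (mul_le_mul_of_nonneg_right ?_ (Nat.cast_nonneg _))
    linarith
  -- the shift
  obtain ⟨M, hM⟩ : ∃ M : ℕ, ∀ e ∈ G₁, ∀ k, 0 ≤ e k + M := by
    refine ⟨∑ e ∈ G₁, ∑ k, (e k).natAbs, fun e he k => ?_⟩
    have h1 : (e k).natAbs ≤ ∑ k, (e k).natAbs :=
      Finset.single_le_sum (f := fun k => (e k).natAbs) (fun k _ => Nat.zero_le _)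
        (Finset.mem_univ k)
    have h2 : ∑ k, (e k).natAbs ≤ ∑ e ∈ G₁, ∑ k, (e k).natAbs :=
      Finset.single_le_sum (f := fun e : Fin ((r - 1) / 2) → ℤ => ∑ k, (e k).natAbs)
        (fun e _ => Nat.zero_le _) he
    have h3 := h1.trans h2
    generalize (∑ e ∈ G₁, ∑ k, (e k).natAbs) = N at h3 ⊢
    omega
  have hcast : ∀ e ∈ G₁, ∀ k, (((e k + M).toNat : ℕ) : ℤ) = e k + M := fun e he k =>
    Int.toNat_of_nonneg (hM e he k)
  have hcastR : ∀ e ∈ G₁, ∀ k, (((e k + M).toNat : ℕ) : ℝ) = (e k : ℝ) + M := by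
    intro e he k
    have h1 := hcast e he k
    have h2 : ((((e k + M).toNat : ℕ) : ℤ) : ℝ) = ((e k + M : ℤ) : ℝ) := by rw [h1]
    push_cast at h2
    exact h2
  refine ⟨G₁.image fun (e : Fin ((r - 1) / 2) → ℤ) (k : Fin ((r - 1) / 2)) =>
    (e k + (M : ℤ)).toNat, ?_, ?_, ?_⟩
  · intro e' he' f' hf'
    obtain ⟨e, he, rfl⟩ := Finset.mem_image.1 he'
    obtain ⟨f, hf, rfl⟩ := Finset.mem_image.1 hf'
    have h1 : ((∑ k, (e k + M).toNat : ℕ) : ℤ) = ((∑ k, (f k + M).toNat : ℕ) : ℤ) := by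
      rw [Nat.cast_sum, Nat.cast_sum, Finset.sum_congr rfl fun k _ => hcast e he k,
        Finset.sum_congr rfl fun k _ => hcast f hf k, Finset.sum_add_distrib,
        Finset.sum_add_distrib, (Finset.mem_filter.1 he).2, (Finset.mem_filter.1 hf).2]
    exact_mod_cast h1
  · intro e' he' f' hf'
    obtain ⟨e, he, rfl⟩ := Finset.mem_image.1 he'
    obtain ⟨f, hf, rfl⟩ := Finset.mem_image.1 hf'
    have h1 : ∀ a : ZMod r, xe r (fun k => (e k + M).toNat) a - xe r (fun k => (f k + M).toNat) a =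
        SS r (fun k => ((e k : ℝ) + x k) - ((f k : ℝ) + x k)) a := by
      intro a
      unfold xe SS
      rw [← Finset.sum_sub_distrib]
      refine Finset.sum_congr rfl fun k _ => ?_
      rw [hcastR e he k, hcastR f hf k]
      ring
    simp only [h1]
    rw [sum_half hr2 (fun a => |SS r (fun k => ((e k : ℝ) + x k) - ((f k : ℝ) + x k)) a|)
      (fun a => by rw [SS_neg])]
    have h2 : ∑ k : Fin ((r - 1) / 2),
        |SS r (fun k => ((e k : ℝ) + x k) - ((f k : ℝ) + x k)) (((k : ℕ) + 1 : ℕ) : ZMod r)| ≤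
        (∑ k, |(Hm r).mulVec (fun k => (e k : ℝ) + x k) k|) +
          ∑ k, |(Hm r).mulVec (fun k => (f k : ℝ) + x k) k| := by
      rw [← Finset.sum_add_distrib]
      refine Finset.sum_le_sum fun k _ => ?_
      rw [SS_mulVec, SS_mulVec]
      have h3 : SS r (fun k => ((e k : ℝ) + x k) - ((f k : ℝ) + x k))
          (((k : ℕ) + 1 : ℕ) : ZMod r) =
          SS r (fun k => (e k : ℝ) + x k) (((k : ℕ) + 1 : ℕ) : ZMod r) -
            SS r (fun k => (f k : ℝ) + x k) (((k : ℕ) + 1 : ℕ) : ZMod r) := by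
        unfold SS
        rw [← Finset.sum_sub_distrib]
        exact Finset.sum_congr rfl fun k _ => sub_mul _ _ _
      rw [h3]
      exact abs_sub _ _
    have h4 : ∑ a, |(Hm r).mulVec (fun k => (e k : ℝ) + x k) a| < R :=
      hG₀ e (Finset.mem_filter.1 he).1
    have h5 : ∑ a, |(Hm r).mulVec (fun k => (f k : ℝ) + x k) a| < R :=
      hG₀ f (Finset.mem_filter.1 hf).1
    have h6 : ((r : ℝ) - 1) = 2 * (((r - 1) / 2 : ℕ) : ℝ) := by
      have h7 : (r : ℝ) = 2 * (((r - 1) / 2 : ℕ) : ℝ) + 1 := by exact_mod_cast hrd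
      linarith
    rw [h6]
    have h7 : 2 * (((r - 1) / 2 : ℕ) : ℝ) * L = 2 * R := by rw [hR]; ring
    rw [h7]
    linarith
  · have hinj : Set.InjOn (fun (e : Fin ((r - 1) / 2) → ℤ) (k : Fin ((r - 1) / 2)) =>
        (e k + M).toNat) G₁ := by
      intro e he f hf hef
      funext k
      have h1 := congrFun hef k
      have h2 := hcast e he k
      have h3 := hcast f hf k
      have h4 : (e k + M).toNat = (f k + M).toNat := h1
      rw [h4, h3] at h2
      linarith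
    rw [Finset.card_image_of_injOn hinj]
    rw [div_le_iff₀ hfd] at hvol
    have h7 : 2 * (((r - 1) / 2 : ℕ) : ℝ) * L = 2 * R := by rw [hR]; ring
    have h8 : 4 * (((r - 1) / 2 : ℕ) : ℝ) * L = 4 * R := by rw [hR]; ring
    rw [h7, h8]
    refine hvol.trans (mul_le_mul_of_nonneg_right ?_ hfd.le)
    rw [mul_comm (G₁.card : ℝ)]
    exact hcard

end AKX
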