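import Pool.Agent.AKX.Grp
import Pool.Agent.AKX.Dist
import Pool.Agent.AKX.Sel
import Pool.Agent.AKW.Lat

/-!
# AKX, module Core (helper19)

PROOF.  As `AKW.core`, with `selE`, `farE`, `card_GE`, `det_sq_le`.
-/

open Polynomial AKW

namespace AKX

theorem core {n r p m i : ℕ} [Fact r.Prime] [Fact p.Prime] (hr2 : r ≠ 2) (hn : n.Coprime r)
    (hpr : p.Coprime r) (hnm : n = p * m) (hm : 2 ≤ m) (hmp : ∀ j, m ≠ p ^ j) (hp2 : 2 < p)
    (hst : (X ^ r - 1 : (ZMod n)[X]) ∣ (X - 1) ^ n - (X ^ n - 1))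
    (hi : i = (Subgroup.closure
      {-1, ZMod.unitOfCoprime n hn, ZMod.unitOfCoprime p hpr}).index)
    {N : ℝ} (hN : 0 ≤ N)
    (hN2 : 4 * (((r : ℝ) - 1) / (2 * i)) * Real.log m * Real.log p < 3 * N ^ 2) :
    (2 * (((r - 1) / 2 : ℕ) : ℝ) * Real.log (p / 2)) ^ ((r - 1) / 2) ≤
      (2 * (2 * Real.exp N) ^ i) * (4 * (((r - 1) / 2 : ℕ) : ℝ) * Real.log (p / 2) + 1) *
        (((r - 1) / 2).factorial * |(Hm r).det|) := by
  have hr : r.Prime := Fact.out
  have hp : p.Prime := Fact.out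
  have hmr : m.Coprime r := Nat.Coprime.coprime_dvd_left ⟨p, by rw [hnm, mul_comm]⟩ hn
  -- the primitive root in characteristic `p`
  let F := AlgebraicClosure (ZMod p)
  have : CharP F p := inferInstance
  have hrF : ((r : ℕ) : F) ≠ 0 := by
    intro h
    have h' := (CharP.cast_eq_zero_iff F p r).1 h
    have := (Nat.Prime.coprime_iff_not_dvd hp).1 hpr
    exact this h'
  have : NeZero ((r : ℕ) : F) := ⟨hrF⟩
  obtain ⟨z, hz0⟩ : ∃ z : F, (cyclotomic r F).IsRoot z :=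
    IsAlgClosed.exists_root _ (by
      rw [degree_cyclotomic]
      have := Nat.totient_pos.2 hr.pos
      exact_mod_cast this.ne')
  have hz : IsPrimitiveRoot z r := isRoot_cyclotomic_iff.1 hz0
  -- introspective numbers
  have hi' : i = (Subgroup.closure
      {-1, ZMod.unitOfCoprime m hmr, ZMod.unitOfCoprime p hpr}).index := by
    rw [hi, span_eq hn hmr hpr hnm]
  obtain ⟨a, b, a', b', hlt, huv, hle⟩ := exists_uv hr2 hp hm hmp hmr hpr hi' hN hN2
  set u := m ^ a * p ^ b with hu_def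
  set v := m ^ a' * p ^ b' with hv_def
  have hu : Intro r F u := intro_mp hnm hst a b
  have hv : Intro r F v := intro_mp hnm hst a' b'
  -- the selection
  have hL : 0 < Real.log (p / 2) := Real.log_pos (by
    rw [one_lt_div (by norm_num)]
    exact_mod_cast hp2)
  obtain ⟨G, hG1, hG2, hG3⟩ := selE hr2 hL
  have h3 : ∀ e ∈ G, ∀ e' ∈ G, (∀ a : (ZMod r)ˣ,
      aeval (z ^ (a : ZMod r).val) (CE r e) = aeval (z ^ (a : ZMod r).val) (CE r e')) → e = e' := by
    intro e he e' he' heq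
    by_contra hne
    have h1 := farE hr2 hz hne (hG1 e he e' he') heq
    exact absurd (hG2 e he e' he') (not_lt.2 h1)
  have hcard := card_GE hr2 hn hpr ⟨m, hnm⟩ hst hz hu hv huv hlt G h3
  rw [← hi] at hcard
  have hcard' : (G.card : ℝ) ≤ 2 * (2 * Real.exp N) ^ i := by
    have e1 : (G.card : ℝ) ≤ ((2 * (2 * (u - v)) ^ i : ℕ) : ℝ) := by exact_mod_cast hcard
    refine e1.trans ?_
    push_cast
    have e2 : ((u - v : ℕ) : ℝ) ≤ Real.exp N := by
      refine le_trans ?_ hle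
      exact_mod_cast Nat.sub_le u v
    have e3 : (0 : ℝ) ≤ ((u - v : ℕ) : ℝ) := Nat.cast_nonneg _
    gcongr
  refine hG3.trans ?_
  gcongr

end AKX
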