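import Pool.Agent.AKW.Defs

/-!
# Project AKX (MP_2867b3_nt, architect helper19): one AKS congruence, larger class of `n`

`d = (r - 1) / 2`.  Exponent vectors are `e : Fin d → ℕ`, the coordinate `k` belongs to `j = k + 1`.
-/

open Polynomial AKW

namespace AKX

/-- The product of the `Lam r (k + 1) ^ e k`. -/
noncomputable def CE (r : ℕ) (e : Fin ((r - 1) / 2) → ℕ) : ℤ[X] := ∏ k : Fin ((r - 1) / 2), Lam r ((k : ℕ) + 1) ^ e k

/-- `log |CE r e|` at the conjugate `a`. -/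
noncomputable def xe (r : ℕ) (e : Fin ((r - 1) / 2) → ℕ) (a : ZMod r) : ℝ :=
  ∑ k : Fin ((r - 1) / 2), (e k : ℝ) * hz r (a * (((k : ℕ) + 1 : ℕ) : ZMod r))

/-- The matrix of the `log |2 sin (π a j / r)|`, `1 ≤ a, j ≤ d`. -/
noncomputable def Hm (r : ℕ) : Matrix (Fin ((r - 1) / 2)) (Fin ((r - 1) / 2)) ℝ :=
  Matrix.of fun a k => hz r ((((a : ℕ) + 1 : ℕ) : ZMod r) * (((k : ℕ) + 1 : ℕ) : ZMod r))

/-- `∑ (hz a - hz (2 a) / 2) ^ 2 = ∑ (log |tan (π a / r)|) ^ 2 / 4` -/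
noncomputable def T1 (r : ℕ) [Fact r.Prime] : ℝ :=
  ∑ a : (ZMod r)ˣ, (hz r (a : ZMod r) - hz r (2 * (a : ZMod r)) / 2) ^ 2

end AKX
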