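import Mathlib

/-!
# AKX, module Had: Hadamard's inequality (helper19)

PROOF.  `Orientation.abs_volumeForm_apply_le` for the rows in `EuclideanSpace ℝ (Fin n)` (`EuclideanSpace.norm_eq`); the volume form
of the standard orthonormal basis is the determinant (`Orientation.volumeForm_robust`, `Basis.det_apply`,
`OrthonormalBasis.toBasis`, `Matrix.det_transpose`).  Case `n = 0`: both sides are `1`.  For a general index type use
`Fintype.equivFin ι` (`Matrix.det_submatrix_equiv_self`, `Equiv.prod_comp`, `Equiv.sum_comp`).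
(Alternative: `A Aᵀ` is positive semidefinite and a determinant inequality; or Gram-Schmidt directly.)
-/

namespace AKX

private theorem had_fin (n : ℕ) (A : Matrix (Fin n) (Fin n) ℝ) :
    |A.det| ≤ ∏ i, Real.sqrt (∑ j, A i j ^ 2) := by
  have hf : Fact (Module.finrank ℝ (EuclideanSpace ℝ (Fin n)) = n) := ⟨by simp⟩
  obtain ⟨b, hb⟩ : ∃ b : OrthonormalBasis (Fin n) ℝ (EuclideanSpace ℝ (Fin n)),
      b = EuclideanSpace.basisFun (Fin n) ℝ := ⟨_, rfl⟩
  obtain ⟨v, hv⟩ : ∃ v : Fin n → EuclideanSpace ℝ (Fin n), v = fun i => WithLp.toLp 2 (A i) :=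
    ⟨_, rfl⟩
  have h1 := (b.toBasis.orientation).abs_volumeForm_apply_le v
  rw [(b.toBasis.orientation).volumeForm_robust b rfl, Module.Basis.det_apply] at h1
  have h2 : b.toBasis.toMatrix v = A.transpose := by
    ext i j
    rw [Module.Basis.toMatrix_apply, OrthonormalBasis.coe_toBasis_repr_apply, hb, hv,
      EuclideanSpace.basisFun_repr, Matrix.transpose_apply]
  rw [h2, Matrix.det_transpose] at h1
  refine h1.trans (le_of_eq ?_)
  refine Finset.prod_congr rfl fun i _ => ?_
  rw [EuclideanSpace.norm_eq, hv]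
  congr 1
  refine Finset.sum_congr rfl fun j _ => ?_
  rw [Real.norm_eq_abs, sq_abs]

theorem abs_det_le {ι : Type} [Fintype ι] [DecidableEq ι] (A : Matrix ι ι ℝ) :
    |A.det| ≤ ∏ i, Real.sqrt (∑ j, A i j ^ 2) := by
  have e := (Fintype.equivFin ι).symm
  have h1 := had_fin (Fintype.card ι) (A.submatrix e e)
  rw [Matrix.det_submatrix_equiv_self] at h1
  refine h1.trans (le_of_eq ?_)
  rw [← Equiv.prod_comp e]
  refine Finset.prod_congr rfl fun i _ => ?_
  rw [← Equiv.sum_comp e]
  rfl

end AKX
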