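import Mathlib

/-!
# AKX, module Mol: the determinant of `1 - x (translation by g)` on a finite group (helper19)

PROOF.  Let `f = orderOf g`, `K = Subgroup.zpowers g`, of cardinality `f`.  Every element of `Q` is uniquely `q.out * g ^ s`,
`q : Q ⧸ K`, `s : Fin f` (or `ZMod f`): an equivalence `(Q ⧸ K) × Fin f ≃ Q` (`Subgroup.groupEquivQuotientProdSubgroup`,
`finEquivZPowers`; `Q` is commutative).  In these coordinates `g * (q, s) = (q, s + 1)` (cyclic), so the reindexed matrix
(`Matrix.det_submatrix_equiv_self`) is block diagonal (`Matrix.blockDiagonal`, `Matrix.det_blockDiagonal`) with `card (Q ⧸ K) =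
card Q / f` equal blocks `B = 1 - x C`, `C i j = 1` if `j = i + 1` modulo `f`.  `det B = 1 - x ^ f`: for `f = 1` it is `1 - x`;
for `f ≥ 2` in Leibniz' formula only `σ = 1` (value `1`) and `σ =` the rotation (value `(-x) ^ f`, sign `(-1) ^ (f - 1)`,
`sign_finRotate`) contribute: if `σ` has only entries `σ i ∈ {i, i + 1}` and `σ i = i + 1` for one `i`, then by injectivity
`σ (i + 1) ≠ i + 1`, so `σ (i + 1) = i + 2`, and so on.  (Alternative for `det B`: expand along a column: triangular minors, or
`Matrix.det_succ_column`; or multiply `B` by `1 + x C + … + x ^ (f - 1) C ^ (f - 1)`; or the eigenvalues `1 - x ω`, `ω ^ f = 1`.)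
-/

namespace AKX

private theorem det_cyc (n : ℕ) (x : ℝ) :
    (Matrix.of fun i j : Fin (n + 1) =>
      (if i = j then (1 : ℝ) else 0) - (if j = i + 1 then x else 0)).det = 1 - x ^ (n + 1) := by
  cases n with
  | zero =>
    rw [Matrix.det_fin_one]
    simp
  | succ n =>
    set A : Matrix (Fin (n + 2)) (Fin (n + 2)) ℝ := Matrix.of fun i j : Fin (n + 2) =>
      (if i = j then (1 : ℝ) else 0) - (if j = i + 1 then x else 0) with hA
    have hAe : ∀ i j, A i j = (if i = j then (1 : ℝ) else 0) - (if j = i + 1 then x else 0) :=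
      fun i j => rfl
    have hcs : ∀ k : Fin (n + 1), k.castSucc + 1 = k.succ := fun k => Fin.coeSucc_eq_succ
    have h1 : ∀ k : Fin (n + 2), k ≠ k + 1 := by
      intro k hk
      have h2 : (0 : Fin (n + 2)) = 1 := by
        have := congrArg (fun z => z - k) hk
        simp at this
      exact Fin.zero_ne_one h2
    have e0 : A 0 0 = 1 := by
      rw [hAe, if_pos rfl, if_neg (h1 0), sub_zero]
    have el : A (Fin.last (n + 1)) 0 = -x := by
      rw [hAe, if_neg (Fin.last_pos).ne', Fin.last_add_one, if_pos rfl, zero_sub]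
    have em : ∀ k : Fin n, A (k.succ.castSucc) 0 = 0 := by
      intro k
      rw [hAe, hcs, if_neg, if_neg (Fin.succ_ne_zero _).symm, sub_zero]
      intro h
      have := congrArg Fin.val h
      simp at this
    have m0 : (A.submatrix (Fin.succAbove 0) Fin.succ).det = 1 := by
      rw [Matrix.det_of_isUpperTriangular]
      · refine Finset.prod_eq_one fun k _ => ?_
        rw [Matrix.submatrix_apply, Fin.succAbove_zero, hAe, if_pos rfl, if_neg (h1 _), sub_zero]
      · intro i j hij
        have hij' : j < i := hij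
        rw [Matrix.submatrix_apply, Fin.succAbove_zero, hAe, if_neg, if_neg, sub_zero]
        · intro h
          rcases Fin.eq_castSucc_or_eq_last i.succ with ⟨k, hk⟩ | hk
          · rw [hk, hcs] at h
            have h3 := congrArg Fin.val h
            have h4 := congrArg Fin.val hk
            simp at h3 h4
            omega
          · rw [hk, Fin.last_add_one] at h
            exact Fin.succ_ne_zero _ h
        · intro h
          exact hij'.ne (Fin.succ_injective _ h).symm
    have ml : (A.submatrix (Fin.succAbove (Fin.last (n + 1))) Fin.succ).det = (-x) ^ (n + 1) := by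
      rw [Matrix.det_of_isLowerTriangular]
      · rw [Finset.prod_congr rfl (g := fun _ => -x)]
        · simp
        · intro k _
          rw [Matrix.submatrix_apply, Fin.succAbove_last, hAe, hcs, if_pos rfl, if_neg, zero_sub]
          intro h
          have := congrArg Fin.val h
          simp at this
      · intro i j hij
        have hij' : i < j := hij
        rw [Matrix.submatrix_apply, Fin.succAbove_last, hAe, hcs, if_neg, if_neg, sub_zero]
        · intro h
          exact hij'.ne (Fin.succ_injective _ h).symm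
        · intro h
          have h3 := congrArg Fin.val h
          simp at h3
          omega
    rw [Matrix.det_succ_column_zero, Fin.sum_univ_castSucc, Fin.sum_univ_succ]
    have hz : ∑ k : Fin n, (-1 : ℝ) ^ ((k.succ.castSucc : Fin (n + 2)) : ℕ) * A k.succ.castSucc 0 *
        (A.submatrix (Fin.succAbove k.succ.castSucc) Fin.succ).det = 0 := by
      refine Finset.sum_eq_zero fun k _ => ?_
      rw [em, mul_zero, zero_mul]
    rw [hz, add_zero, el, ml, Fin.castSucc_zero, e0, m0]
    simp only [Fin.val_zero, Fin.val_last, pow_zero, one_mul]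
    rw [mul_assoc, ← pow_succ', show (-1 : ℝ) ^ (n + 1) * (-x) ^ (n + 1 + 1) =
      ((-1) * (-x)) ^ (n + 1) * (-x) by rw [mul_pow, pow_succ (-x) (n + 1), mul_assoc]]
    rw [neg_one_mul, neg_neg, pow_succ x (n + 1)]
    ring

theorem det_one_sub {Q : Type} [CommGroup Q] [Fintype Q] [DecidableEq Q] (g : Q) (x : ℝ) :
    (Matrix.of fun a b : Q => (if a = b then (1 : ℝ) else 0) - (if b = g * a then x else 0)).det =
      (1 - x ^ orderOf g) ^ (Fintype.card Q / orderOf g) := by
  classical
  obtain ⟨n, hn⟩ : ∃ n, orderOf g = n + 1 := ⟨orderOf g - 1, by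
    have := orderOf_pos g
    omega⟩
  let K : Subgroup Q := Subgroup.zpowers g
  let e0 : Fin (n + 1) × (Q ⧸ K) → Q := fun p => Quotient.out p.2 * g ^ (p.1 : ℕ)
  have hmk : ∀ p, (QuotientGroup.mk (e0 p) : Q ⧸ K) = p.2 := by
    intro p
    have h1 : (QuotientGroup.mk (e0 p) : Q ⧸ K) = QuotientGroup.mk (Quotient.out p.2) := by
      rw [QuotientGroup.eq]
      have h2 : (e0 p)⁻¹ * Quotient.out p.2 = (g ^ (p.1 : ℕ))⁻¹ := by
        change (Quotient.out p.2 * g ^ (p.1 : ℕ))⁻¹ * Quotient.out p.2 = _
        rw [mul_inv, mul_comm (Quotient.out p.2)⁻¹, mul_assoc, inv_mul_cancel, mul_one]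
      rw [h2]
      exact K.inv_mem (K.pow_mem (Subgroup.mem_zpowers g) _)
    rw [h1]
    exact QuotientGroup.out_eq' p.2
  have hinj : Function.Injective e0 := by
    intro p q hpq
    have h1 : p.2 = q.2 := by rw [← hmk p, ← hmk q, hpq]
    have h2 : g ^ (p.1 : ℕ) = g ^ (q.1 : ℕ) := by
      have h3 : Quotient.out p.2 * g ^ (p.1 : ℕ) = Quotient.out q.2 * g ^ (q.1 : ℕ) := hpq
      rw [h1] at h3
      exact mul_left_cancel h3
    have h4 : (p.1 : ℕ) = q.1 := by
      rw [pow_inj_mod, hn, Nat.mod_eq_of_lt p.1.2, Nat.mod_eq_of_lt q.1.2] at h2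
      exact h2
    exact Prod.ext (Fin.ext h4) h1
  have hcard : Fintype.card Q = Fintype.card (Q ⧸ K) * (n + 1) := by
    have h1 := Subgroup.card_eq_card_quotient_mul_card_subgroup K
    rw [Nat.card_eq_fintype_card, Nat.card_eq_fintype_card] at h1
    rw [h1, Nat.card_zpowers, hn]
  have hbij : Function.Bijective e0 := by
    rw [Fintype.bijective_iff_injective_and_card]
    refine ⟨hinj, ?_⟩
    rw [Fintype.card_prod, Fintype.card_fin, hcard, mul_comm]
  let e : Fin (n + 1) × (Q ⧸ K) ≃ Q := Equiv.ofBijective e0 hbij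
  have hstep : ∀ p, g * e0 p = e0 (p.1 + 1, p.2) := by
    intro p
    change g * (Quotient.out p.2 * g ^ (p.1 : ℕ)) = Quotient.out p.2 * g ^ ((p.1 + 1 : Fin (n + 1)) : ℕ)
    have h1 : g ^ ((p.1 + 1 : Fin (n + 1)) : ℕ) = g ^ ((p.1 : ℕ) + 1) := by
      rw [pow_inj_mod, hn, Fin.val_add, Nat.mod_mod]
      simp [Nat.add_mod]
    rw [h1, pow_succ, mul_left_comm, mul_comm g]
  rw [← Matrix.det_submatrix_equiv_self e]
  have hB : (Matrix.of fun a b : Q => (if a = b then (1 : ℝ) else 0) -
      (if b = g * a then x else 0)).submatrix e e = Matrix.blockDiagonal fun _ : Q ⧸ K =>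
      (Matrix.of fun i j : Fin (n + 1) =>
        (if i = j then (1 : ℝ) else 0) - (if j = i + 1 then x else 0)) := by
    ext p q
    rw [Matrix.submatrix_apply, Matrix.blockDiagonal_apply]
    change (if e0 p = e0 q then (1 : ℝ) else 0) - (if e0 q = g * e0 p then x else 0) =
      if p.2 = q.2 then (if p.1 = q.1 then (1 : ℝ) else 0) - (if q.1 = p.1 + 1 then x else 0) else 0
    rw [hstep]
    by_cases h : p.2 = q.2
    · rw [if_pos h]
      have h1 : (e0 p = e0 q) ↔ p.1 = q.1 :=
        ⟨fun h' => congrArg Prod.fst (hinj h'), fun h' => by rw [Prod.ext h' h]⟩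
      have h2 : (e0 q = e0 (p.1 + 1, p.2)) ↔ q.1 = p.1 + 1 :=
        ⟨fun h' => congrArg Prod.fst (hinj h'), fun h' => congrArg e0 (Prod.ext h' h.symm)⟩
      simp only [h1, h2]
    · rw [if_neg h, if_neg (fun h' => h (congrArg Prod.snd (hinj h'))),
        if_neg (fun h' : e0 q = e0 (p.1 + 1, p.2) => h (congrArg Prod.snd (hinj h')).symm), sub_zero]
  rw [hB, Matrix.det_blockDiagonal, Finset.prod_const, Finset.card_univ, det_cyc, hcard, hn,
    Nat.mul_div_cancel _ (Nat.succ_pos n)]

end AKX
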