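import Pool.Agent.AKX.Defs
import Pool.Agent.AKX.Had
import Pool.Agent.AKX.Mol
import Pool.Agent.AKW.Fou

/-!
# AKX, module Det: the determinant of the matrix `Hm` (helper19)

PROOFS.  `d = (r - 1) / 2`.
* `det_ne_zero`: otherwise `Hm *ᵥ e = 0` for some `e ≠ 0` (`Matrix.exists_mulVec_eq_zero_iff`), i.e.
  `∑_k e k hz (a (k + 1)) = 0` for `1 ≤ a ≤ d`, hence (`hz` even) for all the units `a`; `AKW.indep` (with `j ↦ e (j - 1)`) gives
  `e = 0`.
* `det_sq_le`: let `Q = (ZMod r)ˣ ⧸ Subgroup.zpowers (-1)`, a group with `d` elements (`-1 ≠ 1`), `hq : Q → ℝ` the function induced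
  by `hz` (`hz_neg`), `φ : Fin d ≃ Q`, `k ↦ [k + 1]` (injective: `k + 1 = ± (k' + 1)` modulo `r` with `1 ≤ k + 1, k' + 1 ≤ d` only
  for `k = k'`; same cardinality).  `Hm = A.submatrix φ φ`, `A a b = hq (a * b)`, so `det Hm = det A`.  Let `g = [2]`,
  `f = orderOf g`, `D` the matrix of `det_one_sub` with `x = 1 / 2`.  `(A * Dᵀ) a b = hq (a b) - hq (g a b) / 2`, and for each `a`
  `∑_b (hq (a b) - hq (g a b) / 2) ^ 2 = ∑_{b : Q} (hq b - hq (g b) / 2) ^ 2 = T1 r / 2` (every class has two elements).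
  By `abs_det_le`: `|det A| |det D| ≤ √(T1 r / 2) ^ d`.  `det D = (1 - 2 ^ (-f)) ^ (d / f)`, and `g ^ f = 1` means
  `2 ^ f = ± 1` modulo `r`, so `r ≤ 2 ^ f + 1`, `2 d ≤ 2 ^ f`; Bernoulli (`one_add_mul_le_pow`):
  `det D ≥ 1 - (d / f) 2 ^ (-f) ≥ 1 - 1 / (2 f) ≥ 1 / 2`.
-/

open AKW

namespace AKX

private theorem odd_r {r : ℕ} [Fact r.Prime] (hr2 : r ≠ 2) : r = 2 * ((r - 1) / 2) + 1 := by
  have hr : r.Prime := Fact.out
  have h1 := hr.eq_one_or_self_of_dvd 2
  have h2 := hr.two_le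
  have h3 : ¬ 2 ∣ r := by
    intro h
    rcases h1 h with h4 | h4
    · omega
    · exact hr2 h4.symm
  omega

private theorem rep {r : ℕ} [Fact r.Prime] (hr2 : r ≠ 2) (u : (ZMod r)ˣ) :
    ∃ k : Fin ((r - 1) / 2), (u : ZMod r) = (((k : ℕ) + 1 : ℕ) : ZMod r) ∨
      (u : ZMod r) = -(((k : ℕ) + 1 : ℕ) : ZMod r) := by
  have hr : r.Prime := Fact.out
  have hne : NeZero r := ⟨hr.ne_zero⟩
  have h1 := odd_r hr2
  have h2 : (u : ZMod r).val < r := ZMod.val_lt _
  have h3 : (u : ZMod r).val ≠ 0 := by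
    intro h
    rw [ZMod.val_eq_zero] at h
    exact u.ne_zero h
  by_cases h4 : (u : ZMod r).val ≤ (r - 1) / 2
  · refine ⟨⟨(u : ZMod r).val - 1, by omega⟩, Or.inl ?_⟩
    have h5 : (u : ZMod r).val - 1 + 1 = (u : ZMod r).val := by omega
    show (u : ZMod r) = (((u : ZMod r).val - 1 + 1 : ℕ) : ZMod r)
    rw [h5, ZMod.natCast_zmod_val]
  · refine ⟨⟨r - (u : ZMod r).val - 1, by omega⟩, Or.inr ?_⟩
    have h5 : r - (u : ZMod r).val - 1 + 1 = r - (u : ZMod r).val := by omega
    show (u : ZMod r) = -((r - (u : ZMod r).val - 1 + 1 : ℕ) : ZMod r)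
    rw [h5, Nat.cast_sub h2.le, ZMod.natCast_self, ZMod.natCast_zmod_val]
    ring

private theorem rinj {r : ℕ} [Fact r.Prime] (hr2 : r ≠ 2) {k k' : Fin ((r - 1) / 2)}
    (h : ((((k : ℕ) + 1 : ℕ) : ZMod r) = (((k' : ℕ) + 1 : ℕ) : ZMod r)) ∨
      ((((k : ℕ) + 1 : ℕ) : ZMod r) = -(((k' : ℕ) + 1 : ℕ) : ZMod r))) : k = k' := by
  have hr : r.Prime := Fact.out
  have h1 := odd_r hr2
  have hk := k.2
  have hk' := k'.2
  rcases h with h | h
  · rw [ZMod.natCast_eq_natCast_iff] at h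
    have := Nat.ModEq.eq_of_lt_of_lt h (by omega) (by omega)
    exact Fin.ext (by omega)
  · have h3 : ((((k : ℕ) + 1) + ((k' : ℕ) + 1) : ℕ) : ZMod r) = 0 := by
      rw [Nat.cast_add, h]
      ring
    rw [ZMod.natCast_eq_zero_iff] at h3
    have := Nat.le_of_dvd (by omega) h3
    omega

theorem det_ne_zero {r : ℕ} [Fact r.Prime] (hr2 : r ≠ 2) : (Hm r).det ≠ 0 := by
  intro h0
  obtain ⟨v, hv, h1⟩ := Matrix.exists_mulVec_eq_zero_iff.2 h0
  obtain ⟨e, he⟩ : ∃ e : ℕ → ℝ, e = fun j => if h : j - 1 < (r - 1) / 2 then v ⟨j - 1, h⟩ else 0 :=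
    ⟨_, rfl⟩
  have hek : ∀ k : Fin ((r - 1) / 2), e ((k : ℕ) + 1) = v k := by
    intro k
    rw [he]
    have h2 : (k : ℕ) + 1 - 1 < (r - 1) / 2 := by
      have := k.2
      omega
    show (if h : (k : ℕ) + 1 - 1 < (r - 1) / 2 then v ⟨(k : ℕ) + 1 - 1, h⟩ else 0) = v k
    rw [dif_pos h2]
    rfl
  have hsum : ∀ F : ℕ → ℝ, ∑ j ∈ Finset.Icc 1 ((r - 1) / 2), F j =
      ∑ k : Fin ((r - 1) / 2), F ((k : ℕ) + 1) := by
    intro F
    rw [Fin.sum_univ_eq_sum_range (fun k => F (k + 1)) ((r - 1) / 2)]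
    have h2 : Finset.Icc 1 ((r - 1) / 2) = (Finset.range ((r - 1) / 2)).image (fun k => k + 1) := by
      ext j
      simp only [Finset.mem_Icc, Finset.mem_image, Finset.mem_range]
      constructor
      · rintro ⟨h3, h4⟩
        exact ⟨j - 1, by omega, by omega⟩
      · rintro ⟨k, h3, rfl⟩
        omega
    rw [h2, Finset.sum_image]
    intro a _ b _ hab
    exact Nat.succ_injective hab
  have key : ∀ a : Fin ((r - 1) / 2), ∑ j ∈ Finset.Icc 1 ((r - 1) / 2),
      e j * hz r ((((a : ℕ) + 1 : ℕ) : ZMod r) * (j : ZMod r)) = 0 := by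
    intro a
    rw [hsum (fun j => e j * hz r ((((a : ℕ) + 1 : ℕ) : ZMod r) * (j : ZMod r)))]
    have h2 := congrFun h1 a
    rw [Pi.zero_apply, Matrix.mulVec, dotProduct] at h2
    rw [← h2]
    refine Finset.sum_congr rfl fun k _ => ?_
    rw [hek]
    show v k * _ = hz r _ * v k
    rw [mul_comm]
  have hall := indep hr2 e fun u => by
    obtain ⟨a, ha⟩ := rep hr2 u
    rcases ha with ha | ha
    · rw [ha]
      exact key a
    · rw [← key a]
      refine Finset.sum_congr rfl fun j _ => ?_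
      rw [ha, neg_mul, hz_neg]
  refine hv (funext fun k => ?_)
  rw [← hek k]
  refine hall _ ?_
  rw [Finset.mem_Icc]
  have := k.2
  omega

/-- the abstract form -/
private theorem abstr {Q : Type} [CommGroup Q] [Fintype Q] [DecidableEq Q] (hq : Q → ℝ) (g : Q)
    {T : ℝ} (hT : ∑ b : Q, (hq b - hq (g * b) / 2) ^ 2 = T)
    (hf : 2 * Fintype.card Q ≤ 2 ^ orderOf g) :
    (Matrix.of fun a b : Q => hq (a * b)).det ^ 2 ≤ 4 * T ^ Fintype.card Q := by
  obtain ⟨A, hA⟩ : ∃ A : Matrix Q Q ℝ, A = Matrix.of fun a b : Q => hq (a * b) := ⟨_, rfl⟩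
  obtain ⟨D, hD⟩ : ∃ D : Matrix Q Q ℝ, D = Matrix.of fun a b : Q =>
    (if a = b then (1 : ℝ) else 0) - (if b = g * a then (1 / 2 : ℝ) else 0) := ⟨_, rfl⟩
  have hT0 : 0 ≤ T := by
    rw [← hT]
    exact Finset.sum_nonneg fun b _ => sq_nonneg _
  have hAD : A * D.transpose = Matrix.of fun a b : Q => hq (a * b) - hq (g * (a * b)) / 2 := by
    ext a b
    rw [Matrix.mul_apply, hA, hD]
    simp only [Matrix.transpose_apply, Matrix.of_apply, mul_sub, Finset.sum_sub_distrib, mul_ite,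
      mul_one, mul_zero, Finset.sum_ite_eq, Finset.sum_ite_eq', Finset.mem_univ, if_true]
    have h1 : a * (g * b) = g * (a * b) := mul_left_comm a g b
    rw [h1]
    ring
  have hrow : ∀ a : Q, ∑ b : Q, (A * D.transpose) a b ^ 2 = T := by
    intro a
    rw [hAD, ← hT]
    simp only [Matrix.of_apply]
    exact Equiv.sum_comp (Equiv.mulLeft a) (fun b => (hq b - hq (g * b) / 2) ^ 2)
  have h2 : |(A * D.transpose).det| ≤ Real.sqrt T ^ Fintype.card Q := by
    refine (abs_det_le (A * D.transpose)).trans (le_of_eq ?_)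
    simp only [hrow]
    rw [Finset.prod_const, Finset.card_univ]
  rw [Matrix.det_mul, Matrix.det_transpose] at h2
  have hDd : D.det = (1 - (1 / 2) ^ orderOf g) ^ (Fintype.card Q / orderOf g) := by
    rw [hD]
    exact det_one_sub g (1 / 2)
  have hD2 : 1 / 2 ≤ D.det := by
    rw [hDd]
    have h3 : (0 : ℝ) < 2 ^ orderOf g := by positivity
    have h4 : ((1 : ℝ) / 2) ^ orderOf g = 1 / 2 ^ orderOf g := by
      rw [div_pow, one_pow]
    have h5 : (-2 : ℝ) ≤ -(1 / 2) ^ orderOf g := by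
      have : ((1 : ℝ) / 2) ^ orderOf g ≤ 1 := pow_le_one₀ (by norm_num) (by norm_num)
      linarith
    have h6 := one_add_mul_le_pow h5 (Fintype.card Q / orderOf g)
    have h7 : ((Fintype.card Q / orderOf g : ℕ) : ℝ) ≤ Fintype.card Q := by
      exact_mod_cast Nat.div_le_self _ _
    have h8 : (2 : ℝ) * Fintype.card Q ≤ 2 ^ orderOf g := by exact_mod_cast hf
    have h9 : ((Fintype.card Q / orderOf g : ℕ) : ℝ) * (1 / 2) ^ orderOf g ≤ 1 / 2 := by
      rw [h4, mul_one_div, div_le_iff₀ h3]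
      linarith
    have h10 : (1 : ℝ) - (1 / 2) ^ orderOf g = 1 + -(1 / 2) ^ orderOf g := by ring
    rw [h10]
    refine le_trans ?_ h6
    linarith
  have h11 : |A.det * D.det| ^ 2 ≤ T ^ Fintype.card Q := by
    have h12 := pow_le_pow_left₀ (abs_nonneg _) h2 2
    rwa [← pow_mul, mul_comm (Fintype.card Q) 2, pow_mul, Real.sq_sqrt hT0] at h12
  rw [sq_abs, mul_pow] at h11
  have h13 : (1 : ℝ) / 4 ≤ D.det ^ 2 := by nlinarith
  rw [← hA]
  nlinarith [mul_le_mul_of_nonneg_left h13 (sq_nonneg A.det)]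

theorem det_sq_le {r : ℕ} [Fact r.Prime] (hr2 : r ≠ 2) :
    (Hm r).det ^ 2 ≤ 4 * (T1 r / 2) ^ ((r - 1) / 2) := by
  classical
  have hr : r.Prime := Fact.out
  have hodd := odd_r hr2
  let N : Subgroup (ZMod r)ˣ := Subgroup.zpowers (-1)
  let Q : Type := (ZMod r)ˣ ⧸ N
  let _ : Fintype Q := Fintype.ofFinite Q
  let mk : (ZMod r)ˣ →* Q := QuotientGroup.mk' N
  -- two units with the same class
  have hmem : ∀ x : (ZMod r)ˣ, x ∈ N ↔ x = 1 ∨ x = -1 := by
    intro x
    constructor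
    · intro hx
      obtain ⟨n, rfl⟩ := Subgroup.mem_zpowers_iff.1 hx
      rcases Int.even_or_odd n with h | h
      · left
        exact h.neg_one_zpow
      · right
        exact h.neg_one_zpow
    · rintro (rfl | rfl)
      · exact N.one_mem
      · exact Subgroup.mem_zpowers _
  have hmk : ∀ x y : (ZMod r)ˣ, mk x = mk y ↔ y = x ∨ y = -x := by
    intro x y
    have h1 : mk x = mk y ↔ x⁻¹ * y ∈ N := QuotientGroup.eq
    rw [h1, hmem, inv_mul_eq_iff_eq_mul, inv_mul_eq_iff_eq_mul, mul_one, mul_neg, mul_one]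
  have hsurj : Function.Surjective mk := QuotientGroup.mk'_surjective N
  -- the induced function
  let hq : Q → ℝ := fun q => hz r ((Quotient.out q : (ZMod r)ˣ) : ZMod r)
  have hhq : ∀ x : (ZMod r)ˣ, hq (mk x) = hz r (x : ZMod r) := by
    intro x
    have h1 : mk (Quotient.out (mk x)) = mk x := QuotientGroup.out_eq' (mk x)
    rcases (hmk _ _).1 h1 with h2 | h2
    · show hz r ((Quotient.out (mk x) : (ZMod r)ˣ) : ZMod r) = _
      rw [← h2]
    · show hz r ((Quotient.out (mk x) : (ZMod r)ˣ) : ZMod r) = hz r (x : ZMod r)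
      conv_rhs => rw [h2]
      rw [Units.val_neg, hz_neg]
  -- the parametrisation
  have hU : ∀ k : Fin ((r - 1) / 2), ∃ u : (ZMod r)ˣ, (u : ZMod r) = (((k : ℕ) + 1 : ℕ) : ZMod r) :=
    fun k => unit_of_mem (by
      rw [Finset.mem_Icc]
      have := k.2
      omega)
  choose U hU using hU
  have hbij : Function.Bijective (fun k : Fin ((r - 1) / 2) => mk (U k)) := by
    constructor
    · intro k k' h
      have h1 := (hmk _ _).1 h
      refine (rinj hr2 ?_).symm
      rcases h1 with h1 | h1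
      · left
        rw [← hU k, ← hU k', h1]
      · right
        rw [← hU k, ← hU k', h1, Units.val_neg]
    · intro q
      obtain ⟨u, rfl⟩ := hsurj q
      obtain ⟨k, hk⟩ := rep hr2 u
      refine ⟨k, ?_⟩
      show mk (U k) = mk u
      rw [hmk]
      rw [← hU k] at hk
      rcases hk with hk | hk
      · left
        exact Units.ext hk
      · right
        exact Units.ext (by rw [hk, Units.val_neg])
  let φ : Fin ((r - 1) / 2) ≃ Q := Equiv.ofBijective _ hbij
  have hcard : Fintype.card Q = (r - 1) / 2 := by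
    rw [← Fintype.card_congr φ, Fintype.card_fin]
  have hHm : Hm r = (Matrix.of fun a b : Q => hq (a * b)).submatrix φ φ := by
    ext a k
    show hz r ((((a : ℕ) + 1 : ℕ) : ZMod r) * (((k : ℕ) + 1 : ℕ) : ZMod r)) =
      hq (mk (U a) * mk (U k))
    rw [← map_mul, hhq, Units.val_mul, hU, hU]
  -- the sum over the classes
  have hfib : ∀ F : Q → ℝ, ∑ x : (ZMod r)ˣ, F (mk x) = 2 * ∑ q : Q, F q := by
    intro F
    rw [← Finset.sum_fiberwise Finset.univ (fun x => mk x) (fun x => F (mk x)), Finset.mul_sum]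
    refine Finset.sum_congr rfl fun q _ => ?_
    obtain ⟨y, rfl⟩ := hsurj q
    have h1 : (Finset.univ.filter fun x : (ZMod r)ˣ => mk x = mk y) = {y, -y} := by
      ext x
      rw [Finset.mem_filter, Finset.mem_insert, Finset.mem_singleton, eq_comm, hmk]
      simp
    have hyne : y ≠ -y := by
      intro h2
      have h3 : (y : ZMod r) = -(y : ZMod r) := by
        have := congrArg (fun z : (ZMod r)ˣ => (z : ZMod r)) h2
        simpa using this
      have h4 : (2 : ZMod r) * (y : ZMod r) = 0 := by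
        linear_combination h3
      rcases mul_eq_zero.1 h4 with h5 | h5
      · have h6 : ((2 : ℕ) : ZMod r) = 0 := by exact_mod_cast h5
        rw [ZMod.natCast_eq_zero_iff] at h6
        have := Nat.le_of_dvd (by norm_num) h6
        have := hr.two_le
        omega
      · exact y.ne_zero h5
    rw [h1, Finset.sum_pair hyne]
    have h2 : mk (-y) = mk y := by
      rw [hmk]
      right
      simp
    rw [h2]
    ring
  -- the class of two
  obtain ⟨w, hw⟩ : ∃ w : (ZMod r)ˣ, (w : ZMod r) = 2 := by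
    have h2 : Nat.Coprime 2 r := by
      rw [Nat.coprime_comm, Nat.Prime.coprime_iff_not_dvd hr]
      intro h3
      have := Nat.le_of_dvd (by norm_num) h3
      have := hr.two_le
      omega
    exact ⟨ZMod.unitOfCoprime 2 h2, by rw [ZMod.coe_unitOfCoprime]; norm_num⟩
  have hT : ∑ b : Q, (hq b - hq (mk w * b) / 2) ^ 2 = T1 r / 2 := by
    have h1 := hfib (fun b => (hq b - hq (mk w * b) / 2) ^ 2)
    have h2 : ∑ x : (ZMod r)ˣ, (hq (mk x) - hq (mk w * mk x) / 2) ^ 2 = T1 r := by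
      unfold T1
      refine Finset.sum_congr rfl fun x _ => ?_
      rw [← map_mul, hhq, hhq, Units.val_mul, hw]
    linarith
  have hord : 2 * Fintype.card Q ≤ 2 ^ orderOf (mk w) := by
    have h1 : mk w ^ orderOf (mk w) = 1 := pow_orderOf_eq_one _
    rw [← map_pow, ← map_one mk, hmk] at h1
    have h0 : 0 < orderOf (mk w) := orderOf_pos _
    have hpow : 2 ≤ 2 ^ orderOf (mk w) := by
      calc 2 = 2 ^ 1 := by norm_num
        _ ≤ 2 ^ orderOf (mk w) := Nat.pow_le_pow_right (by norm_num) h0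
    rw [hcard]
    have h5 : r ≤ 2 ^ orderOf (mk w) + 1 := by
      rcases h1 with h1 | h1
      · have h2 : ((2 ^ orderOf (mk w) : ℕ) : ZMod r) = ((1 : ℕ) : ZMod r) := by
          have := congrArg (fun z : (ZMod r)ˣ => (z : ZMod r)) h1
          simp only [Units.val_one, Units.val_pow_eq_pow_val, hw] at this
          rw [Nat.cast_pow, Nat.cast_one, this]
          norm_num
        have h3 : r ∣ 2 ^ orderOf (mk w) - 1 := by
          have h4 : ((2 ^ orderOf (mk w) - 1 : ℕ) : ZMod r) = 0 := by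
            rw [Nat.cast_sub (by omega), h2, sub_self]
          exact (ZMod.natCast_eq_zero_iff _ _).1 h4
        have := Nat.le_of_dvd (by omega) h3
        omega
      · have h2 : ((2 ^ orderOf (mk w) + 1 : ℕ) : ZMod r) = 0 := by
          have := congrArg (fun z : (ZMod r)ˣ => (z : ZMod r)) h1
          simp only [Units.val_one, Units.val_neg, Units.val_pow_eq_pow_val, hw] at this
          rw [Nat.cast_add, Nat.cast_pow, Nat.cast_one, this]
          push_cast
          ring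
        have h3 := (ZMod.natCast_eq_zero_iff _ _).1 h2
        exact Nat.le_of_dvd (by omega) h3
    omega
  have := abstr hq (mk w) hT hord
  rw [hHm, Matrix.det_submatrix_equiv_self]
  rwa [hcard] at this

end AKX
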