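import Mathlib

/-!
# AKX, module Num: the numbers (helper19)

`α = log m`, `β = log p`, `T = T1 r`, `d = (r - 1) / 2`, `r = 2 d + 1`, `L = β - log 2`, `log 2 = 0.693147…`.

* `log_fac`: `d ! ≤ e d (d / e) ^ d` by induction (`e d ^ (d + 1) ≤ (d + 1) ^ (d + 1)`, i.e. `log (1 + 1 / d) ≥ 1 / (d + 1)`).

* `num`: `L ^ 2 ≥ 0.97 β ^ 2` (`0.6932 / 46 ≤ 0.01507`).  `N = √((4 / 3) (d / i) α β + 1)`; `4 (d / i) α β < 3 N ^ 2`.
`(i N) ^ 2 = (4 / 3) i d α β + i ^ 2 ≤ (4 / 9) d (2 d + 1) + i ^ 2` (by `h1`), and `i ≤ (2 d + 1) / (3 * 0.6931 * 46) ≤ (2 d + 1) / 95.6`,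
so `2 d + 1 ≥ 95.6`, `d ≥ 48`.
The last line of the theorem, rearranged, with `small = 4 log 2 + 2 + 2 log d + 2 log (4 d L + 1) ≤ 4.78 + 2 log d + 2 log (4.01 d β)`:
  `2 i N + 2 i log 2 + small < d (2 + 2 log 2 + 2 log L - log (T / 2)) = d log (8 e ^ 2 L ^ 2 / T)`, `8 e ^ 2 ≥ 59.11`,
  `8 e ^ 2 L ^ 2 ≥ 57.33 β ^ 2`.
CASE A1: `r ≥ 25000`.  `(i N) ^ 2 ≤ (0.88889 + 0.00004 + 0.00044) d ^ 2`, `2 i N ≤ 1.8862 d`, `2 i log 2 ≤ 0.0291 d`, so the left side is
  `≤ 1.9153 d + small`.  `log r ^ 2 / (2 r) ≤ 0.00206` (`log x ^ 2 / x` is decreasing for `x ≥ e ^ 2`; or `log x ≤ …` by concavity of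
  `log` at `25000`), `T ≤ 0.63746 r = 8.287 β ^ 2 / σ` where `σ = 13 β ^ 2 / r ≥ 1`, `57.33 / 8.287 = 6.918 > exp 1.934`, right side
  `≥ (1.934 + log σ) d`.  `2 log β = log σ + log (r / 13)`.  Margin: `0.0187 d + d log σ > 4.78 + 2 log d + 2 log (4.01 d) + log σ +
  log (r / 13)`: at `d = 12500` it is `233.7 > 53` (derivative in `d`: `0.0187 > 5 / d + …`).
CASE A2: `10001 ≤ r ≤ 25000`.  Left side `≤ 1.9155 d + small` in the same way (`d ≥ 5000`, `0.00009` in place of `0.00004`);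
  `T ≤ 0.6354 * 25000 + 52 ≤ 15940`, `57.33 β ^ 2 / T ≥ 7.58 (β / 46) ^ 2`, right side `≥ (2.02 + 2 log (β / 46)) d`; margin
  `0.104 d ≥ 520 > small` at `β = 46` (`small ≤ 4.78 + 18.9 + 29.3`), and `2 d log (β / 46) ≥ 2 log (β / 46)`.
CASE B: `r ≤ 10001`.  `48 ≤ d ≤ 5000`.  `(i N) ^ 2 ≤ (0.88889 + 0.0095 + 0.00045) d ^ 2`, `2 i N + 2 i log 2 ≤ 1.93 d`;
  `T ≤ 0.6354 * 10001 + 43 ≤ 6400`, right side `≥ (log (57.33 * 2116 / 6400) + 2 log (β / 46)) d ≥ (2.94 + 2 log (β / 46)) d`;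
  `1.01 d > small` at `β = 46` for `d ≥ 48` (`small ≤ 4.78 + 4 log d + 2 log (4.01 * 46)`: `48.4 > 4.78 + 15.5 + 10.5`, then by the
  derivative `1.01 > 4 / d`), and `2 d log (β / 46) ≥ 2 log (β / 46)`.
The inequality was checked numerically over the whole range (smallest margin `234` near `d = 48`, `248` at `β = 46`, `α = log 2`, `i = 287`,
`r = 27507`).
-/

namespace AKX

theorem log_fac {d : ℕ} (hd : 1 ≤ d) :
    Real.log (d.factorial : ℝ) ≤ 1 + Real.log d + d * Real.log d - d := by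
  induction d, hd using Nat.le_induction with
  | base => simp
  | succ n hn ih =>
    have hn0 : (0 : ℝ) < n := by exact_mod_cast hn
    have h1 : Real.log ((n + 1).factorial : ℝ) = Real.log (n + 1) + Real.log (n.factorial : ℝ) := by
      rw [Nat.factorial_succ]
      push_cast
      rw [Real.log_mul (by positivity) (by positivity)]
    have h2 := Real.one_sub_inv_le_log_of_pos (x := ((n : ℝ) + 1) / n) (by positivity)
    rw [Real.log_div (by positivity) (by positivity), inv_div] at h2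
    have h3 := mul_le_mul_of_nonneg_left h2 (by positivity : (0 : ℝ) ≤ (n : ℝ) + 1)
    have h4 : ((n : ℝ) + 1) * (1 - (n : ℝ) / (n + 1)) = 1 := by
      field_simp
      ring
    rw [h4] at h3
    rw [h1]
    push_cast
    nlinarith

private theorem log_le_lin {x c : ℝ} (hx : 0 < x) (hc : 0 < c) :
    Real.log x ≤ Real.log c + x / c - 1 := by
  have h1 := Real.log_le_sub_one_of_pos (by positivity : 0 < x / c)
  rw [Real.log_div hx.ne' hc.ne'] at h1
  linarith

private theorem log_ten_le : Real.log 10 ≤ 2.3105 := by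
  have h1 : Real.log ((10 : ℝ) ^ 3) ≤ Real.log ((2 : ℝ) ^ 10) :=
    Real.log_le_log (by norm_num) (by norm_num)
  rw [Real.log_pow, Real.log_pow] at h1
  have h2 := Real.log_two_lt_d9
  push_cast at h1
  linarith

private theorem T_le_big {T r : ℝ} (hr : 10000 ≤ r)
    (hT : T ≤ 0.6354 * r + Real.log r ^ 2 / 2) : T ≤ 0.64 * r := by
  have hr0 : 0 < r := by linarith
  obtain ⟨s, hs⟩ : ∃ s, s = Real.sqrt r := ⟨_, rfl⟩
  have hs2 : s ^ 2 = r := by rw [hs, Real.sq_sqrt hr0.le]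
  have hs0 : 0 < s := by rw [hs]; exact Real.sqrt_pos.2 hr0
  have hs1 : 100 ≤ s := by
    by_contra h
    push Not at h
    nlinarith
  have h1 : Real.log r = 2 * Real.log s := by
    rw [← hs2, Real.log_pow]
    push_cast
    ring
  have h2 := log_le_lin hs0 (by norm_num : (0 : ℝ) < 100)
  have h3 : Real.log (100 : ℝ) ≤ 4.621 := by
    have h4 : Real.log (100 : ℝ) = 2 * Real.log 10 := by
      rw [show (100 : ℝ) = 10 ^ 2 by norm_num, Real.log_pow]
      push_cast
      ring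
    have h5 := log_ten_le
    rw [h4]
    linarith
  have h6 : Real.log r ≤ 0.0959 * s := by
    rw [h1]
    linarith
  have h7 : 0 ≤ Real.log r := Real.log_nonneg (by linarith)
  have h8 : Real.log r ^ 2 ≤ (0.0959 * s) ^ 2 := pow_le_pow_left₀ h7 h6 2
  rw [mul_pow, hs2] at h8
  linarith

private theorem T_le_small {T r : ℝ} (hr0 : 1 ≤ r) (hr : r ≤ 10001)
    (hT : T ≤ 0.6354 * r + Real.log r ^ 2 / 2) : T ≤ 6400 := by
  have h1 : Real.log r ≤ 9.2421 := by
    have h2 := log_le_lin (by linarith : 0 < r) (by norm_num : (0 : ℝ) < 10000)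
    have h4 : Real.log (10000 : ℝ) = 4 * Real.log 10 := by
      rw [show (10000 : ℝ) = 10 ^ 4 by norm_num, Real.log_pow]
      push_cast
      ring
    have h5 := log_ten_le
    linarith
  have h7 : 0 ≤ Real.log r := Real.log_nonneg hr0
  have h8 : Real.log r ^ 2 ≤ 9.2421 ^ 2 := pow_le_pow_left₀ h7 h1 2
  linarith

/-- the part of the logarithms -/
private theorem log_part {d L : ℝ} (hd : 48 ≤ d) (hL : 45 ≤ L) :
    Real.log (4 * d * L + 1) ≤ Real.log L + 2 * Real.log 2 + Real.log d + 0.0025 := by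
  have hd0 : 0 < d := by linarith
  have hL0 : 0 < L := by linarith
  have h1 : 4 * d * L + 1 ≤ 4.01 * (d * L) := by nlinarith
  have h2 := Real.log_le_log (by positivity : 0 < 4 * d * L + 1) h1
  rw [Real.log_mul (by norm_num) (by positivity), Real.log_mul hd0.ne' hL0.ne'] at h2
  have h3 : Real.log (4.01 : ℝ) ≤ 2 * Real.log 2 + 0.0025 := by
    have h4 := log_le_lin (by norm_num : (0 : ℝ) < 4.01) (by norm_num : (0 : ℝ) < 4)
    have h5 : Real.log (4 : ℝ) = 2 * Real.log 2 := by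
      rw [show (4 : ℝ) = 2 ^ 2 by norm_num, Real.log_pow]
      push_cast
      ring
    linarith
  linarith

/-- the inequality after rearranging -/
private theorem num_aux {β T d i P : ℝ} (hβ : 46 ≤ β) (hi : 1 ≤ i) (hd : 48 ≤ d)
    (hi2 : 95.6 * i ≤ 2 * d + 1) (h2 : 2 * d + 1 ≤ 13 * β ^ 2) (hT0 : 0 < T)
    (hT : T ≤ 0.6354 * (2 * d + 1) + Real.log (2 * d + 1) ^ 2 / 2)
    (hP : P ^ 2 ≤ 4 / 9 * (d * (2 * d + 1)) + i ^ 2) :
    2 * P + 2 * i * Real.log 2 + 4 * Real.log 2 + 2 + 2 * Real.log d +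
      2 * Real.log (4 * d * (β - Real.log 2) + 1) <
      d * (2 + 3 * Real.log 2) + 2 * d * Real.log (β - Real.log 2) - d * Real.log T := by
  have l1 := Real.log_two_gt_d9
  have l2 := Real.log_two_lt_d9
  have hd0 : 0 < d := by linarith
  have hi0 : 0 < i := by linarith
  obtain ⟨L, hL⟩ : ∃ L, L = β - Real.log 2 := ⟨_, rfl⟩
  rw [← hL]
  have hL45 : 45.3 ≤ L := by rw [hL]; linarith
  have hL0 : 0 < L := by linarith
  have hlp := log_part hd (by linarith : 45 ≤ L)
  have hLβ : 0.97 * β ^ 2 ≤ L ^ 2 := by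
    have h3 : 0.98493 * β ≤ L := by
      rw [hL]
      linarith
    have h4 : (0.98493 * β) ^ 2 ≤ L ^ 2 := pow_le_pow_left₀ (by positivity) h3 2
    have h5 : 0 ≤ β ^ 2 := sq_nonneg β
    rw [mul_pow] at h4
    linarith
  have hil : i * Real.log 2 ≤ 0.69314719 * i := by nlinarith
  rcases le_or_gt 5000 d with hA | hB
  · -- case A
    have hr : 10000 ≤ 2 * d + 1 := by linarith
    have hTr := T_le_big hr hT
    have hi3 : i ≤ 0.020923 * d := by linarith
    have hi4 : i ^ 2 ≤ (0.020923 * d) ^ 2 := pow_le_pow_left₀ hi0.le hi3 2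
    have hP2 : P ≤ 0.9431 * d := by
      have h3 : P ^ 2 ≤ (0.9431 * d) ^ 2 := by
        refine hP.trans ?_
        rw [mul_pow] at hi4 ⊢
        nlinarith
      nlinarith
    have hr0 : 0 < 2 * d + 1 := by linarith
    have hL2 : 0.97 / 13 * (2 * d + 1) ≤ L ^ 2 := by
      refine le_trans ?_ hLβ
      linarith
    have hlL : Real.log (0.97 / 13 * (2 * d + 1)) ≤ 2 * Real.log L := by
      have h3 := Real.log_le_log (by positivity) hL2
      rw [Real.log_pow] at h3
      push_cast at h3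
      exact h3
    have hlT : Real.log T ≤ Real.log (0.64 * (2 * d + 1)) := Real.log_le_log hT0 hTr
    have hq : Real.log (0.97 / 13 * (2 * d + 1)) =
        Real.log (0.64 * (2 * d + 1)) - 3 * Real.log 2 + Real.log (8 * 0.97 / 8.32) := by
      have h3 : (0.97 / 13 * (2 * d + 1)) * 8 = (0.64 * (2 * d + 1)) * (8 * 0.97 / 8.32) := by
        ring
      have h4 := congrArg Real.log h3
      rw [Real.log_mul (y := (8 : ℝ)) (by positivity) (by norm_num),
        Real.log_mul (y := (8 * 0.97 / 8.32 : ℝ)) (by positivity) (by norm_num)] at h4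
      have h5 : Real.log (8 : ℝ) = 3 * Real.log 2 := by
        rw [show (8 : ℝ) = 2 ^ 3 by norm_num, Real.log_pow]
        push_cast
        ring
      linarith
    have hq2 : -0.0722 ≤ Real.log (8 * 0.97 / 8.32 : ℝ) := by
      have h3 := Real.one_sub_inv_le_log_of_pos (x := (8 * 0.97 / 8.32 : ℝ)) (by norm_num)
      refine le_trans ?_ h3
      norm_num
    have hq3 : Real.log (0.97 / 13 * (2 * d + 1)) ≤ Real.log d - 2 * Real.log 2 := by
      have h3 : 0.97 / 13 * (2 * d + 1) ≤ d / 4 := by linarith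
      have h4 := Real.log_le_log (by positivity) h3
      have h5 : Real.log (4 : ℝ) = 2 * Real.log 2 := by
        rw [show (4 : ℝ) = 2 ^ 2 by norm_num, Real.log_pow]
        push_cast
        ring
      rw [Real.log_div hd0.ne' (by norm_num), h5] at h4
      exact h4
    have hld : Real.log d ≤ 7.5489 + d / 5000 := by
      have h3 := log_le_lin hd0 (by norm_num : (0 : ℝ) < 5000)
      have h4 : Real.log (5000 : ℝ) = 4 * Real.log 10 - Real.log 2 := by
        have h6 : Real.log ((5000 : ℝ) * 2) = Real.log ((10 : ℝ) ^ 4) := by norm_num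
        rw [Real.log_mul (by norm_num) (by norm_num), Real.log_pow] at h6
        push_cast at h6
        linarith
      have h5 := log_ten_le
      linarith
    -- the products
    obtain ⟨X, hX⟩ : ∃ X, X = Real.log (0.97 / 13 * (2 * d + 1)) := ⟨_, rfl⟩
    obtain ⟨Y, hY⟩ : ∃ Y, Y = Real.log (0.64 * (2 * d + 1)) := ⟨_, rfl⟩
    obtain ⟨Z, hZ⟩ : ∃ Z, Z = Real.log (8 * 0.97 / 8.32 : ℝ) := ⟨_, rfl⟩
    rw [← hX] at hlL hq3
    rw [← hX, ← hY, ← hZ] at hq
    rw [← hY] at hlT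
    rw [← hZ] at hq2
    have m1 : (d - 1) * X ≤ (d - 1) * (2 * Real.log L) :=
      mul_le_mul_of_nonneg_left hlL (by linarith)
    have m2 : d * Real.log T ≤ d * Y := mul_le_mul_of_nonneg_left hlT hd0.le
    have m3 : d * X = d * Y - 3 * (d * Real.log 2) + d * Z := by
      rw [hq]
      ring
    have m4 : d * (-0.0722) ≤ d * Z := mul_le_mul_of_nonneg_left hq2 hd0.le
    have m5 : (d - 1) * X = d * X - X := by ring
    have m6 : (d - 1) * (2 * Real.log L) = 2 * d * Real.log L - 2 * Real.log L := by ring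
    have m7 : 2 * i * Real.log 2 = 2 * (i * Real.log 2) := by ring
    have m8 : d * (2 + 3 * Real.log 2) = 2 * d + 3 * (d * Real.log 2) := by ring
    rw [m7, m8]
    linarith
  · -- case B
    have hTr := T_le_small (by linarith) (by linarith : 2 * d + 1 ≤ 10001) hT
    have hi3 : i ≤ 0.02114 * d := by linarith
    have hi4 : i ^ 2 ≤ (0.02114 * d) ^ 2 := pow_le_pow_left₀ hi0.le hi3 2
    have hP2 : P ≤ 0.948 * d := by
      have h3 : P ^ 2 ≤ (0.948 * d) ^ 2 := by
        refine hP.trans ?_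
        rw [mul_pow] at hi4 ⊢
        nlinarith
      nlinarith
    have hlL : 11 * Real.log 2 ≤ 2 * Real.log L := by
      have h3 : (2 : ℝ) ^ 11 ≤ L ^ 2 := by nlinarith
      have h4 := Real.log_le_log (by positivity) h3
      rw [Real.log_pow, Real.log_pow] at h4
      push_cast at h4
      exact h4
    have hlT : Real.log T ≤ 13 * Real.log 2 := by
      have h3 : T ≤ (2 : ℝ) ^ 13 := by linarith
      have h4 := Real.log_le_log hT0 h3
      rw [Real.log_pow] at h4
      push_cast at h4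
      exact h4
    have hld : Real.log d ≤ 3.159 + d / 64 := by
      have h3 := log_le_lin hd0 (by norm_num : (0 : ℝ) < 64)
      have h4 : Real.log (64 : ℝ) = 6 * Real.log 2 := by
        rw [show (64 : ℝ) = 2 ^ 6 by norm_num, Real.log_pow]
        push_cast
        ring
      linarith
    have m1 : (d - 1) * (11 * Real.log 2) ≤ (d - 1) * (2 * Real.log L) :=
      mul_le_mul_of_nonneg_left hlL (by linarith)
    have m2 : d * Real.log T ≤ d * (13 * Real.log 2) := mul_le_mul_of_nonneg_left hlT hd0.le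
    have m3 : 0.6931471 * d ≤ d * Real.log 2 := by nlinarith
    have m5 : (d - 1) * (11 * Real.log 2) = 11 * (d * Real.log 2) - 11 * Real.log 2 := by ring
    have m6 : (d - 1) * (2 * Real.log L) = 2 * d * Real.log L - 2 * Real.log L := by ring
    have m7 : 2 * i * Real.log 2 = 2 * (i * Real.log 2) := by ring
    have m8 : d * (2 + 3 * Real.log 2) = 2 * d + 3 * (d * Real.log 2) := by ring
    have m9 : d * (13 * Real.log 2) = 13 * (d * Real.log 2) := by ring
    rw [m7, m8]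
    linarith

theorem num {α β T : ℝ} {d i : ℕ} (hβ : 46 ≤ β) (hα : Real.log 2 ≤ α) (hi : 1 ≤ i) (hd : 1 ≤ d)
    (h1 : 3 * i * α * β ≤ 2 * d + 1) (h2 : 2 * d + 1 ≤ 13 * β ^ 2) (hT0 : 0 < T)
    (hT : T ≤ 0.6354 * (2 * d + 1) + Real.log (2 * d + 1) ^ 2 / 2) :
    ∃ N : ℝ, 0 ≤ N ∧ 4 * ((d : ℝ) / i) * α * β < 3 * N ^ 2 ∧
      2 * (Real.log 2 + i * (Real.log 2 + N) + Real.log (4 * d * (β - Real.log 2) + 1) +
          (1 + Real.log d + d * Real.log d - d)) + (Real.log 4 + d * Real.log (T / 2)) <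
      2 * (d * Real.log (2 * d * (β - Real.log 2))) := by
  have l1 := Real.log_two_gt_d9
  have l2 := Real.log_two_lt_d9
  have hi1 : (1 : ℝ) ≤ i := by exact_mod_cast hi
  have hi0 : (0 : ℝ) < i := by linarith
  have hd0 : (0 : ℝ) < d := by exact_mod_cast hd
  have hα0 : 0.6931 ≤ α := by linarith
  have hαβ : 31.88 ≤ α * β := by nlinarith
  have hi2 : 95.6 * (i : ℝ) ≤ 2 * d + 1 := by
    have h3 : (i : ℝ) * 31.88 ≤ i * (α * β) := mul_le_mul_of_nonneg_left hαβ hi0.le
    have h4 : 3 * (i : ℝ) * α * β = 3 * (i * (α * β)) := by ring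
    rw [h4] at h1
    linarith
  have hd48 : (48 : ℝ) ≤ d := by
    by_contra h
    have h3 : ¬ 48 ≤ d := fun h4 => h (by exact_mod_cast h4)
    have h4 : d ≤ 47 := by omega
    have h5 : (d : ℝ) ≤ 47 := by exact_mod_cast h4
    linarith
  obtain ⟨N, hN⟩ : ∃ N, N = Real.sqrt (4 / 3 * ((d : ℝ) / i) * (α * β) + 1) := ⟨_, rfl⟩
  have hN0 : 0 ≤ N := by rw [hN]; exact Real.sqrt_nonneg _
  have hN2 : N ^ 2 = 4 / 3 * ((d : ℝ) / i) * (α * β) + 1 := by
    rw [hN, Real.sq_sqrt]
    positivity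
  refine ⟨N, hN0, ?_, ?_⟩
  · rw [hN2]
    nlinarith
  have hP : ((i : ℝ) * N) ^ 2 ≤ 4 / 9 * ((d : ℝ) * (2 * d + 1)) + (i : ℝ) ^ 2 := by
    rw [mul_pow, hN2]
    have h3 : (i : ℝ) ^ 2 * (4 / 3 * ((d : ℝ) / i) * (α * β) + 1) =
        4 / 9 * (d * (3 * i * α * β)) + (i : ℝ) ^ 2 := by
      field_simp
      ring
    rw [h3]
    have h4 := mul_le_mul_of_nonneg_left h1 hd0.le
    linarith
  have key := num_aux hβ hi1 hd48 hi2 h2 hT0 hT hP
  have hL0 : 0 < β - Real.log 2 := by linarith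
  have e1 : Real.log (2 * d * (β - Real.log 2)) =
      Real.log 2 + Real.log d + Real.log (β - Real.log 2) := by
    rw [Real.log_mul (by positivity) hL0.ne', Real.log_mul (by norm_num) hd0.ne']
  have e2 : Real.log (T / 2) = Real.log T - Real.log 2 := by
    rw [Real.log_div hT0.ne' (by norm_num)]
  have e3 : Real.log (4 : ℝ) = 2 * Real.log 2 := by
    rw [show (4 : ℝ) = 2 ^ 2 by norm_num, Real.log_pow]
    push_cast
    ring
  rw [e1, e2, e3]
  linarith

end AKX
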