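import Pool.Agent.AKX.Defs
import Pool.Agent.AKW.Sin

/-!
# AKX, module Tgb: the sum `T1` (helper19)

PROOFS.
* `sum_log_sq'`: `f t = t (log (y / t) ^ 2 + 2 log (y / t) + 2)` for `t > 0`, `f 0 = 0`; `f' t = log (y / t) ^ 2` is decreasing on
  `(0, y]`, so `log (y / a) ^ 2 ≤ f a - f (a - 1)` for `1 ≤ a ≤ y`; telescoping up to `⌊t⌋`, and `f` is increasing.  (See
  `Pool/Agent/AKW/Lsq.lean`, `sum_log_sq`, which is the case `t = y`; copy and adapt its proof, e.g. its `sum_log_sq_aux`.)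
* `T1_le`: the term of `a` is `(log |tan (π a / r)|) ^ 2 / 4` (`2 sin (2 x) = (2 sin x) (2 cos x)`; `hz r (2 a) =
  log |2 sin (2 π a.val / r)|` as `|sin (π k / r)|` has period `r` in `k`, see `AKW.norm_sub_one`), and it is the same for `-a`
  (`hz_neg`), so `T1 r = (1 / 2) ∑_{b = 1}^{d} (log tan (π b / r)) ^ 2`, `d = (r - 1) / 2`.  Let `y = r / π`.
  - `b < r / 4`: `x ≤ tan x ≤ 1` for `x = π b / r`, so `|log tan x| ≤ log (y / b)`; the sum of the squares is at most `f (r / 4)`,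
    `f (r / 4) = (r / 4) (l ^ 2 + 2 l + 2)`, `l = log (4 / π) ≤ 0.2416` (`π > 3.1415`, `exp 0.2416 > 1.2733 > 4 / 3.1415`):
    at most `0.6354 r` (`0.2416 ^ 2 + 0.4832 + 2 = 2.541571`, `/ 4 = 0.635393`).
  - `r / 4 < b < r / 2`: `tan (π b / r) = 1 / tan (π c / (2 r))`, `c = r - 2 b = 2 k - 1` odd, `1 ≤ c < r / 2`, so
    `|log tan| ≤ log (2 y / c)`; for `k ≥ 2`, `2 y / (2 k - 1) ≤ y / (k - 1)`, `k - 1 < r / 4`; the sum is at most
    `log (2 y) ^ 2 + f (r / 4) ≤ log r ^ 2 + 0.6354 r` (`1 ≤ 2 y ≤ r`; `2 y ≥ c ≥ 1`).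
  So `T1 r ≤ (1 / 2) (2 * 0.6354 r + log r ^ 2)`.  (`r` odd: `b ≠ r / 4`, `r / 2`.)
-/

open AKW

namespace AKX

private theorem Tgb_aux {y : ℝ} (hy : 0 < y) (n : ℕ) (hn : ((n + 1 : ℕ) : ℝ) ≤ y) :
    ∑ a ∈ Finset.Icc 1 (n + 1), Real.log (y / a) ^ 2 ≤
      ((n + 1 : ℕ) : ℝ) * (Real.log (y / (n + 1 : ℕ)) ^ 2 + 2 * Real.log (y / (n + 1 : ℕ)) + 2) := by
  induction n with
  | zero =>
    have h1 : 0 ≤ Real.log y := Real.log_nonneg (by simpa using hn)
    simp
    linarith
  | succ n ih =>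
    rw [Finset.sum_Icc_succ_top (by omega)]
    have h1 : ((n + 1 : ℕ) : ℝ) ≤ y := le_trans (by push_cast; linarith) hn
    have h2 := ih h1
    set L := Real.log (y / ((n + 1 + 1 : ℕ) : ℝ)) with hL
    have hp1 : (0 : ℝ) < ((n + 1 : ℕ) : ℝ) := by positivity
    have hp2 : (0 : ℝ) < ((n + 1 + 1 : ℕ) : ℝ) := by positivity
    have hL0 : 0 ≤ L := Real.log_nonneg (by rw [le_div_iff₀ hp2]; linarith)
    set δ := Real.log (((n + 1 + 1 : ℕ) : ℝ) / ((n + 1 : ℕ) : ℝ)) with hδ
    have hδ0 : 0 ≤ δ := Real.log_nonneg (by rw [le_div_iff₀ hp1]; push_cast; linarith)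
    have h3 : Real.log (y / ((n + 1 : ℕ) : ℝ)) = L + δ := by
      rw [hL, hδ, ← Real.log_mul (by positivity) (by positivity)]
      congr 1
      field_simp
    have h4 : Real.exp δ = ((n + 1 + 1 : ℕ) : ℝ) / ((n + 1 : ℕ) : ℝ) := by
      rw [hδ, Real.exp_log (by positivity)]
    have h5 : ((n + 1 : ℕ) : ℝ) * Real.exp δ = ((n + 1 : ℕ) : ℝ) + 1 := by
      rw [h4, mul_div_cancel₀ _ hp1.ne']
      push_cast
      ring
    have h6 := Real.quadratic_le_exp_of_nonneg hδ0
    have h7 : ((n + 1 : ℕ) : ℝ) * (1 + δ + δ ^ 2 / 2) ≤ ((n + 1 : ℕ) : ℝ) + 1 := by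
      rw [← h5]
      exact mul_le_mul_of_nonneg_left h6 hp1.le
    have h8 : ((n + 1 : ℕ) : ℝ) * δ ≤ 1 := by
      have : 0 ≤ ((n + 1 : ℕ) : ℝ) * δ ^ 2 := by positivity
      nlinarith
    rw [h3] at h2
    have h9 : ((n + 1 + 1 : ℕ) : ℝ) = ((n + 1 : ℕ) : ℝ) + 1 := by push_cast; ring
    rw [h9]
    set N := ((n + 1 : ℕ) : ℝ)
    have h10 : L * (N * δ) ≤ L := by nlinarith
    nlinarith

theorem sum_log_sq' {y t : ℝ} (ht : 0 < t) (hty : t ≤ y) :
    ∑ a ∈ Finset.Icc 1 ⌊t⌋₊, Real.log (y / a) ^ 2 ≤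
      t * (Real.log (y / t) ^ 2 + 2 * Real.log (y / t) + 2) := by
  have hy : 0 < y := ht.trans_le hty
  rcases Nat.eq_zero_or_pos ⌊t⌋₊ with h | h
  · rw [h]
    have h1 : 0 ≤ Real.log (y / t) := Real.log_nonneg (by rw [le_div_iff₀ ht]; linarith)
    simp
    positivity
  · obtain ⟨n, hn⟩ : ∃ n, ⌊t⌋₊ = n + 1 := ⟨⌊t⌋₊ - 1, by omega⟩
    rw [hn]
    have h1 : ((n + 1 : ℕ) : ℝ) ≤ t := by
      rw [← hn]
      exact Nat.floor_le ht.le
    refine (Tgb_aux hy n (h1.trans hty)).trans ?_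
    have hp : (0 : ℝ) < ((n + 1 : ℕ) : ℝ) := by positivity
    set N := ((n + 1 : ℕ) : ℝ) with hN
    set L := Real.log (y / t) with hL
    have hL0 : 0 ≤ L := Real.log_nonneg (by rw [le_div_iff₀ ht]; linarith)
    set δ := Real.log (t / N) with hδ
    have hδ0 : 0 ≤ δ := Real.log_nonneg (by rw [le_div_iff₀ hp]; linarith)
    have h3 : Real.log (y / N) = L + δ := by
      rw [hL, hδ, ← Real.log_mul (by positivity) (by positivity)]
      congr 1
      field_simp
    have h2 := Real.quadratic_le_exp_of_nonneg hδ0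
    have h4 : N * Real.exp δ = t := by
      rw [hδ, Real.exp_log (by positivity), mul_div_cancel₀ _ hp.ne']
    have h5 := mul_le_mul_of_nonneg_left h2 hp.le
    rw [h4] at h5
    rw [h3]
    have h6 : N * (1 + δ + δ ^ 2 / 2) * (L ^ 2 + 2 * L + 2) ≤ t * (L ^ 2 + 2 * L + 2) :=
      mul_le_mul_of_nonneg_right h5 (by positivity)
    have h7 : 0 ≤ N * (δ * L ^ 2 + δ ^ 2 * L ^ 2 / 2 + δ ^ 2 * L) := by positivity
    nlinarith

private theorem Tgb_val {r a : ℕ} (h : a < r) : ((a : ℕ) : ZMod r).val = a :=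
  ZMod.val_cast_of_lt h

/-- the term of `T1` -/
private noncomputable def Tgb_G (r : ℕ) (x : ZMod r) : ℝ := (hz r x - hz r (2 * x) / 2) ^ 2

private theorem Tgb_eq {r : ℕ} [Fact r.Prime] :
    T1 r = ∑ a ∈ Finset.Ioc 0 (r - 1), Tgb_G r ((a : ℕ) : ZMod r) := by
  have hr : r.Prime := Fact.out
  have : NeZero r := ⟨hr.ne_zero⟩
  unfold T1
  refine Finset.sum_bij (fun u _ => (u : ZMod r).val) ?_ ?_ ?_ ?_
  · intro u _
    have h1 := ZMod.val_lt (u : ZMod r)
    have h2 : (u : ZMod r).val ≠ 0 := by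
      rw [Ne, ZMod.val_eq_zero]
      exact u.ne_zero
    simp only [Finset.mem_Ioc]
    omega
  · intro u _ v _ h
    exact Units.ext (ZMod.val_injective r h)
  · intro a ha
    simp only [Finset.mem_Ioc] at ha
    have hv : ((a : ℕ) : ZMod r).val = a := Tgb_val (by omega)
    have hne : ((a : ℕ) : ZMod r) ≠ 0 := by
      intro h
      rw [h, ZMod.val_zero] at hv
      omega
    exact ⟨Units.mk0 _ hne, Finset.mem_univ _, hv⟩
  · intro u _
    rw [ZMod.natCast_zmod_val, Tgb_G]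

private theorem Tgb_neg {r : ℕ} [Fact r.Prime] (x : ZMod r) : Tgb_G r (-x) = Tgb_G r x := by
  unfold Tgb_G
  rw [hz_neg, mul_neg, hz_neg]

private theorem Tgb_half {r d : ℕ} [Fact r.Prime] (hd : r = 2 * d + 1) :
    T1 r = 2 * ∑ a ∈ Finset.Ioc 0 d, Tgb_G r ((a : ℕ) : ZMod r) := by
  rw [Tgb_eq, show r - 1 = 2 * d by omega, ← Finset.sum_Ioc_consecutive _ (Nat.zero_le d)
    (show d ≤ 2 * d by omega)]
  suffices h : ∑ a ∈ Finset.Ioc d (2 * d), Tgb_G r ((a : ℕ) : ZMod r) =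
      ∑ a ∈ Finset.Ioc 0 d, Tgb_G r ((a : ℕ) : ZMod r) by
    rw [h]
    ring
  refine Finset.sum_bij (fun a _ => r - a) ?_ ?_ ?_ ?_
  · intro a ha
    simp only [Finset.mem_Ioc] at ha ⊢
    omega
  · intro a ha b hb h
    simp only [Finset.mem_Ioc] at ha hb
    omega
  · intro b hb
    simp only [Finset.mem_Ioc] at hb
    exact ⟨r - b, by simp only [Finset.mem_Ioc]; omega, by omega⟩
  · intro a ha
    simp only [Finset.mem_Ioc] at ha
    rw [Nat.cast_sub (by omega), ZMod.natCast_self, zero_sub, Tgb_neg]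

private theorem Tgb_term {r b : ℕ} (hb0 : 0 < b) (hb : 2 * b < r) :
    Tgb_G r ((b : ℕ) : ZMod r) = Real.log |Real.tan (Real.pi * b / r)| ^ 2 / 4 := by
  have hpi := Real.pi_pos
  have hr0 : (0 : ℝ) < r := by
    have : 0 < r := by omega
    exact_mod_cast this
  have hb0' : (0 : ℝ) < b := by exact_mod_cast hb0
  have hb' : 2 * (b : ℝ) < r := by exact_mod_cast hb
  set x : ℝ := Real.pi * b / r with hx
  have hx0 : 0 < x := by positivity
  have hx1 : x < Real.pi / 2 := by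
    rw [hx, div_lt_iff₀ hr0]
    nlinarith
  have hs : 0 < Real.sin x := Real.sin_pos_of_pos_of_lt_pi hx0 (by linarith)
  have hc : 0 < Real.cos x := Real.cos_pos_of_mem_Ioo ⟨by linarith, hx1⟩
  have h1 : hz r ((b : ℕ) : ZMod r) = Real.log (2 * Real.sin x) := by
    unfold hz
    rw [Tgb_val (by omega), ← hx, abs_of_pos (by positivity)]
  have h2 : hz r (2 * ((b : ℕ) : ZMod r)) = Real.log (2 * Real.sin x) + Real.log (2 * Real.cos x) := by
    have e : 2 * ((b : ℕ) : ZMod r) = ((2 * b : ℕ) : ZMod r) := by push_cast; ring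
    rw [e]
    unfold hz
    rw [Tgb_val hb, ← Real.log_mul (by positivity) (by positivity)]
    have e2 : Real.pi * ((2 * b : ℕ) : ℝ) / r = 2 * x := by
      rw [hx]; push_cast; ring
    rw [e2, Real.sin_two_mul]
    have e3 : 2 * (2 * Real.sin x * Real.cos x) = 2 * Real.sin x * (2 * Real.cos x) := by ring
    rw [e3, abs_of_pos (by positivity)]
  have h3 : Real.log |Real.tan x| = Real.log (2 * Real.sin x) - Real.log (2 * Real.cos x) := by
    rw [← Real.log_div (by positivity) (by positivity), Real.tan_eq_sin_div_cos,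
      abs_of_pos (by positivity), mul_div_mul_left _ _ two_ne_zero]
  unfold Tgb_G
  rw [h1, h2, h3]
  ring

private theorem Tgb_log {x : ℝ} (h0 : 0 < x) (h1 : x ≤ Real.pi / 4) :
    Real.log |Real.tan x| ^ 2 ≤ Real.log (1 / x) ^ 2 := by
  have hpi := Real.pi_pos
  have h2 : x ≤ Real.tan x := Real.le_tan h0.le (by linarith)
  have h3 : Real.tan x ≤ 1 := by
    rw [← Real.tan_pi_div_four]
    rcases h1.eq_or_lt with h | h
    · rw [h]
    · exact (Real.tan_lt_tan_of_nonneg_of_lt_pi_div_two h0.le (by linarith) h).le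
  have h4 : 0 < Real.tan x := by linarith
  have h5 : x ≤ 1 := h2.trans h3
  rw [abs_of_pos h4, one_div, Real.log_inv, neg_sq, sq_le_sq,
    abs_of_nonpos (Real.log_nonpos h4.le h3), abs_of_nonpos (Real.log_nonpos h0.le h5)]
  exact neg_le_neg (Real.log_le_log h0 h2)

private theorem Tgb_num : Real.log (4 / Real.pi) ≤ 0.2416 := by
  have hpi := Real.pi_pos
  rw [Real.log_le_iff_le_exp (by positivity)]
  have h1 : (4 : ℝ) / Real.pi ≤ 1.27324 := by
    rw [div_le_iff₀ hpi]
    have := Real.pi_gt_d6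
    nlinarith
  have h2 := Real.sum_le_exp_of_nonneg (show (0 : ℝ) ≤ 0.2416 by norm_num) 6
  refine h1.trans (le_trans ?_ h2)
  simp only [Finset.sum_range_succ, Finset.sum_range_zero, Nat.factorial]
  norm_num

/-- the common bound of the two halves -/
private theorem Tgb_bound {r : ℕ} (hr : 0 < r) :
    ∑ a ∈ Finset.Icc 1 (r / 4), Real.log ((r : ℝ) / Real.pi / a) ^ 2 ≤ 0.6354 * r := by
  have hpi := Real.pi_pos
  have hr0 : (0 : ℝ) < r := by exact_mod_cast hr
  have hfl : ⌊(r : ℝ) / 4⌋₊ = r / 4 := by exact_mod_cast Nat.floor_div_eq_div (K := ℝ) r 4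
  have h := sum_log_sq' (y := (r : ℝ) / Real.pi) (t := (r : ℝ) / 4) (by positivity) (by
    apply div_le_div_of_nonneg_left hr0.le hpi
    exact Real.pi_le_four)
  rw [hfl] at h
  refine h.trans ?_
  have e : (r : ℝ) / Real.pi / ((r : ℝ) / 4) = 4 / Real.pi := by field_simp
  rw [e]
  have hl := Tgb_num
  have hl0 : 0 ≤ Real.log (4 / Real.pi) := by
    apply Real.log_nonneg
    rw [le_div_iff₀ hpi, one_mul]
    exact Real.pi_le_four
  set l := Real.log (4 / Real.pi)
  have h2 : l ^ 2 + 2 * l + 2 ≤ 2.5416 := by nlinarith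
  nlinarith

private theorem Tgb_odd {r d b : ℕ} (hd : r = 2 * d + 1) (hb : r < 4 * b) (hbd : b ≤ d) :
    Real.log |Real.tan (Real.pi * b / r)| ^ 2 ≤
      Real.log (2 * ((r : ℝ) / Real.pi) / (2 * ((d - b : ℕ) : ℝ) + 1)) ^ 2 := by
  have hpi := Real.pi_pos
  have hr0 : (0 : ℝ) < r := by
    have : 0 < r := by omega
    exact_mod_cast this
  have hdR : (r : ℝ) = 2 * d + 1 := by exact_mod_cast hd
  have hbR : (r : ℝ) < 4 * b := by exact_mod_cast hb
  have hbdR : (b : ℝ) ≤ d := by exact_mod_cast hbd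
  set x : ℝ := Real.pi / 2 - Real.pi * b / r with hx
  have h1 : Real.pi * b / r = Real.pi / 2 - x := by rw [hx]; ring
  have hc : x = Real.pi * (2 * ((d : ℝ) - b) + 1) / (2 * r) := by
    rw [hx]
    field_simp
    rw [hdR]
    ring
  have hx0 : 0 < x := by
    rw [hc]
    have : 0 < 2 * ((d : ℝ) - b) + 1 := by linarith
    positivity
  have hx1 : x ≤ Real.pi / 4 := by
    rw [hc, div_le_div_iff₀ (by positivity) (by norm_num)]
    have : 2 * (2 * ((d : ℝ) - b) + 1) ≤ r := by linarith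
    nlinarith
  rw [h1, Real.tan_pi_div_two_sub, abs_inv, Real.log_inv, neg_sq]
  refine (Tgb_log hx0 hx1).trans (le_of_eq ?_)
  congr 2
  rw [hc, Nat.cast_sub hbd]
  have : 2 * ((d : ℝ) - b) + 1 ≠ 0 := by
    have : 0 < 2 * ((d : ℝ) - b) + 1 := by linarith
    exact this.ne'
  field_simp

theorem T1_le {r : ℕ} [Fact r.Prime] (hr2 : r ≠ 2) : T1 r ≤ 0.6354 * r + Real.log r ^ 2 / 2 := by
  have hr : r.Prime := Fact.out
  have hpi := Real.pi_pos
  obtain ⟨d, hd⟩ := hr.odd_of_ne_two hr2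
  have hr3 : 3 ≤ r := by have := hr.two_le; omega
  have hr0 : (0 : ℝ) < r := by exact_mod_cast hr.pos
  have hr3' : (3 : ℝ) ≤ r := by exact_mod_cast hr3
  obtain ⟨m, hm⟩ : ∃ m, d = r / 4 + m + 1 := ⟨d - r / 4 - 1, by omega⟩
  have hm4 : m ≤ r / 4 := by omega
  have key := Tgb_bound hr.pos
  rw [Tgb_half hd, ← Finset.sum_Ioc_consecutive _ (Nat.zero_le (r / 4)) (show r / 4 ≤ d by omega)]
  have b1 : ∑ a ∈ Finset.Ioc 0 (r / 4), Tgb_G r ((a : ℕ) : ZMod r) ≤ 0.6354 * r / 4 := by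
    have hI : Finset.Ioc 0 (r / 4) = Finset.Icc 1 (r / 4) := by
      ext x
      simp only [Finset.mem_Ioc, Finset.mem_Icc]
      omega
    rw [hI]
    calc ∑ a ∈ Finset.Icc 1 (r / 4), Tgb_G r ((a : ℕ) : ZMod r)
        ≤ ∑ a ∈ Finset.Icc 1 (r / 4), Real.log ((r : ℝ) / Real.pi / a) ^ 2 / 4 := by
          refine Finset.sum_le_sum fun a ha => ?_
          simp only [Finset.mem_Icc] at ha
          have ha4 : 4 * a ≤ r := by omega
          have ha4' : 4 * (a : ℝ) ≤ r := by exact_mod_cast ha4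
          have ha1 : (1 : ℝ) ≤ a := by exact_mod_cast ha.1
          rw [Tgb_term (by omega) (by omega)]
          have h1 := Tgb_log (x := Real.pi * a / r) (by positivity) (by
            rw [div_le_div_iff₀ hr0 (by norm_num)]
            nlinarith)
          have e : 1 / (Real.pi * a / r) = (r : ℝ) / Real.pi / a := by field_simp
          rw [e] at h1
          linarith
      _ = (∑ a ∈ Finset.Icc 1 (r / 4), Real.log ((r : ℝ) / Real.pi / a) ^ 2) / 4 := by
          rw [Finset.sum_div]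
      _ ≤ 0.6354 * r / 4 := by linarith
  have b2 : ∑ a ∈ Finset.Ioc (r / 4) d, Tgb_G r ((a : ℕ) : ZMod r) ≤
      (0.6354 * r + Real.log r ^ 2) / 4 := by
    have e1 : ∑ a ∈ Finset.Ioc (r / 4) d, Tgb_G r ((a : ℕ) : ZMod r) =
        ∑ j ∈ Finset.range (m + 1), Tgb_G r (((d - j : ℕ) : ℕ) : ZMod r) := by
      refine Finset.sum_bij' (fun a _ => d - a) (fun j _ => d - j) ?_ ?_ ?_ ?_ ?_
      · intro a ha
        simp only [Finset.mem_Ioc, Finset.mem_range] at ha ⊢
        omega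
      · intro j hj
        simp only [Finset.mem_Ioc, Finset.mem_range] at hj ⊢
        omega
      · intro a ha
        simp only [Finset.mem_Ioc] at ha
        omega
      · intro j hj
        simp only [Finset.mem_range] at hj
        omega
      · intro a ha
        simp only [Finset.mem_Ioc] at ha
        rw [show d - (d - a) = a by omega]
    have e2 : ∀ j ∈ Finset.range (m + 1), Tgb_G r (((d - j : ℕ) : ℕ) : ZMod r) ≤
        Real.log (2 * ((r : ℝ) / Real.pi) / (2 * (j : ℝ) + 1)) ^ 2 / 4 := by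
      intro j hj
      simp only [Finset.mem_range] at hj
      rw [Tgb_term (by omega) (by omega)]
      have h1 := Tgb_odd (b := d - j) hd (by omega) (by omega)
      rw [show d - (d - j) = j by omega] at h1
      linarith
    rw [e1]
    refine (Finset.sum_le_sum e2).trans ?_
    rw [← Finset.sum_div, Finset.sum_range_succ']
    have h0 : Real.log (2 * ((r : ℝ) / Real.pi) / (2 * ((0 : ℕ) : ℝ) + 1)) ^ 2 ≤
        Real.log r ^ 2 := by
      have e3 : 2 * ((r : ℝ) / Real.pi) / (2 * ((0 : ℕ) : ℝ) + 1) = 2 * ((r : ℝ) / Real.pi) := by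
        norm_num
      rw [e3]
      have h1 : 1 ≤ 2 * ((r : ℝ) / Real.pi) := by
        rw [← mul_div_assoc, le_div_iff₀ hpi]
        linarith [Real.pi_le_four]
      have h2 : 2 * ((r : ℝ) / Real.pi) ≤ r := by
        rw [← mul_div_assoc, div_le_iff₀ hpi]
        nlinarith [Real.pi_gt_three]
      exact pow_le_pow_left₀ (Real.log_nonneg h1) (Real.log_le_log (by linarith) h2) 2
    have h1 : ∑ j ∈ Finset.range m, Real.log (2 * ((r : ℝ) / Real.pi) /
        (2 * ((j + 1 : ℕ) : ℝ) + 1)) ^ 2 ≤ 0.6354 * r := by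
      refine le_trans ?_ key
      calc ∑ j ∈ Finset.range m, Real.log (2 * ((r : ℝ) / Real.pi) /
            (2 * ((j + 1 : ℕ) : ℝ) + 1)) ^ 2
          ≤ ∑ j ∈ Finset.range m, Real.log ((r : ℝ) / Real.pi / ((j + 1 : ℕ) : ℝ)) ^ 2 := by
            refine Finset.sum_le_sum fun j hj => ?_
            simp only [Finset.mem_range] at hj
            have hj1 : 4 * (j + 1) ≤ r := by omega
            have hj2 : 4 * ((j + 1 : ℕ) : ℝ) ≤ r := by exact_mod_cast hj1
            have hj3 : 4 * (j + 1) + 2 ≤ r := by omega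
            have hj4 : 4 * ((j + 1 : ℕ) : ℝ) + 2 ≤ r := by exact_mod_cast hj3
            have hj0 : (1 : ℝ) ≤ ((j + 1 : ℕ) : ℝ) := by
              exact_mod_cast Nat.succ_le_succ (Nat.zero_le j)
            set J := ((j + 1 : ℕ) : ℝ)
            have h2 : 1 ≤ 2 * ((r : ℝ) / Real.pi) / (2 * J + 1) := by
              rw [le_div_iff₀ (by linarith), one_mul, ← mul_div_assoc, le_div_iff₀ hpi]
              nlinarith [Real.pi_le_four]
            have h3 : 2 * ((r : ℝ) / Real.pi) / (2 * J + 1) ≤ (r : ℝ) / Real.pi / J := by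
              rw [div_le_div_iff₀ (by linarith) (by linarith)]
              have : 0 < (r : ℝ) / Real.pi := by positivity
              nlinarith
            exact pow_le_pow_left₀ (Real.log_nonneg h2) (Real.log_le_log (by linarith) h3) 2
        _ = ∑ a ∈ Finset.Icc 1 m, Real.log ((r : ℝ) / Real.pi / a) ^ 2 := by
            refine Finset.sum_bij' (fun j _ => j + 1) (fun a _ => a - 1) ?_ ?_ ?_ ?_ ?_
            · intro a ha
              simp only [Finset.mem_Icc, Finset.mem_range] at ha ⊢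
              omega
            · intro j hj
              simp only [Finset.mem_Icc, Finset.mem_range] at hj ⊢
              omega
            · intro a ha
              omega
            · intro j hj
              simp only [Finset.mem_Icc] at hj
              omega
            · intro a ha
              rfl
        _ ≤ ∑ a ∈ Finset.Icc 1 (r / 4), Real.log ((r : ℝ) / Real.pi / a) ^ 2 :=
            Finset.sum_le_sum_of_subset_of_nonneg (Finset.Icc_subset_Icc le_rfl hm4)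
              fun _ _ _ => sq_nonneg _
    linarith
  linarith

theorem T1_pos {r : ℕ} [Fact r.Prime] (hr2 : r ≠ 2) : 0 < T1 r := by
  have hr : r.Prime := Fact.out
  have hpi := Real.pi_pos
  obtain ⟨d, hd⟩ := hr.odd_of_ne_two hr2
  have hr3 : 3 ≤ r := by have := hr.two_le; omega
  have hr0 : (0 : ℝ) < r := by exact_mod_cast hr.pos
  have hr3' : (3 : ℝ) ≤ r := by exact_mod_cast hr3
  rw [Tgb_half hd]
  have h0 : 0 < Tgb_G r ((1 : ℕ) : ZMod r) := by
    rw [Tgb_term one_pos (by omega)]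
    have hx0 : 0 < Real.pi * ((1 : ℕ) : ℝ) / r := by positivity
    have hx1 : Real.pi * ((1 : ℕ) : ℝ) / r < Real.pi / 2 := by
      rw [div_lt_iff₀ hr0]
      push_cast
      nlinarith
    have h1 : 0 < Real.tan (Real.pi * ((1 : ℕ) : ℝ) / r) :=
      Real.tan_pos_of_pos_of_lt_pi_div_two hx0 hx1
    have h2 : Real.log |Real.tan (Real.pi * ((1 : ℕ) : ℝ) / r)| ≠ 0 := by
      rw [abs_of_pos h1]
      intro h
      have h3 : Real.tan (Real.pi * ((1 : ℕ) : ℝ) / r) = 1 := by
        have := Real.exp_log h1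
        rw [h, Real.exp_zero] at this
        exact this.symm
      rw [← Real.tan_pi_div_four] at h3
      have h4 := Real.injOn_tan ⟨by linarith, hx1⟩ ⟨by linarith, by linarith⟩ h3
      rw [div_eq_div_iff hr0.ne' (by norm_num)] at h4
      push_cast at h4
      have h5 : (r : ℝ) = 4 := by
        have : Real.pi * (r : ℝ) = Real.pi * 4 := by linarith
        exact mul_left_cancel₀ hpi.ne' this
      have h6 : r = 4 := by exact_mod_cast h5
      omega
    positivity
  have h1 : Tgb_G r ((1 : ℕ) : ZMod r) ≤ ∑ a ∈ Finset.Ioc 0 d, Tgb_G r ((a : ℕ) : ZMod r) :=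
    Finset.single_le_sum (f := fun a : ℕ => Tgb_G r ((a : ℕ) : ZMod r))
      (fun a _ => sq_nonneg _) (Finset.mem_Ioc.2 ⟨one_pos, by omega⟩)
  linarith

end AKX
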