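import Pool.Agent.AKX.Core
import Pool.Agent.AKX.Num
import Pool.Agent.AKX.Tgb
import Pool.Agent.AKW.Final

/-!
# AKX, module Final (helper19)
-/

open Polynomial AKW

namespace AKX

theorem small_r {n r p i : ℕ} (hr : r.Prime) (hr2 : r ≠ 2) (hn : n.Coprime r) (hp : p.Prime)
    (hpr : p.Coprime r) (hpn : p ∣ n) (hpow : ∀ j : ℕ, n ≠ p ^ j) (hp20 : 10 ^ 20 ≤ p)
    (hi : i = (Subgroup.closure
      {-1, ZMod.unitOfCoprime n hn, ZMod.unitOfCoprime p hpr}).index)
    (h1 : 3 * i * Real.log (n / p) * Real.log p ≤ r)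
    (h2 : (r : ℝ) ≤ 13 * Real.log p ^ 2) :
    ¬ ((X ^ r - 1 : (ZMod n)[X]) ∣ (X - 1) ^ n - (X ^ n - 1)) := by
  intro hst
  have : Fact r.Prime := ⟨hr⟩
  have : Fact p.Prime := ⟨hp⟩
  obtain ⟨m, hnm⟩ := hpn
  have hp0 : (p : ℝ) ≠ 0 := by exact_mod_cast hp.ne_zero
  have hn0 : n ≠ 0 := by
    rintro rfl
    rw [Nat.coprime_zero_left] at hn
    exact hr.one_lt.ne' hn
  have hm0 : m ≠ 0 := by rintro rfl; simp at hnm; exact hn0 hnm
  have hmp : ∀ j, m ≠ p ^ j := by
    intro j hj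
    apply hpow (j + 1)
    rw [hnm, hj, pow_succ, mul_comm]
  have hm2 : 2 ≤ m := by
    have h := hmp 0
    rw [pow_zero] at h
    omega
  have hlog : Real.log ((n : ℝ) / p) = Real.log m := by
    rw [hnm]; push_cast
    rw [mul_div_cancel_left₀ _ hp0]
  rw [hlog] at h1
  have hi1 : 1 ≤ i := by
    rw [hi]
    exact Nat.one_le_iff_ne_zero.2 Subgroup.index_ne_zero_of_finite
  have hα : Real.log 2 ≤ Real.log m := Real.log_le_log (by norm_num) (by exact_mod_cast hm2)
  have hr3 : 3 ≤ r := by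
    have := hr.two_le
    omega
  obtain ⟨d, hd⟩ : Odd r := hr.odd_of_ne_two hr2
  have hd2 : (r - 1) / 2 = d := by omega
  have hd1 : 1 ≤ d := by omega
  have hrd : (r : ℝ) = 2 * d + 1 := by rw [hd]; push_cast; ring
  have hT0 : 0 < T1 r := T1_pos hr2
  have hT := T1_le (r := r) hr2
  rw [hrd] at hT
  obtain ⟨N, hN, hN2, hlast⟩ := num (α := Real.log m) (β := Real.log p) (T := T1 r) (d := d) (i := i)
    (log_ge_46 hp20) hα hi1 hd1 (by rw [← hrd]; exact h1) (by rw [← hrd]; exact h2) hT0 hT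
  have hp2 : 2 < p := lt_of_lt_of_le (by norm_num) hp20
  have hlp : Real.log (p / 2) = Real.log p - Real.log 2 := Real.log_div hp0 (by norm_num)
  have hi0 : (0 : ℝ) < i := by exact_mod_cast hi1
  have hN2' : 4 * (((r : ℝ) - 1) / (2 * i)) * Real.log m * Real.log p < 3 * N ^ 2 := by
    have e : ((r : ℝ) - 1) / (2 * i) = (d : ℝ) / i := by
      rw [hrd]
      field_simp
      ring
    rw [e]; exact hN2
  have hcore := core hr2 hn hpr hnm hm2 hmp hp2 hst hi hN hN2'
  have hdet := det_sq_le (r := r) hr2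
  have hdet0 := det_ne_zero (r := r) hr2
  rw [hlp] at hcore
  obtain ⟨D, hD⟩ : ∃ D, D = |(Hm r).det| := ⟨_, rfl⟩
  have hD0 : 0 < D := by rw [hD]; exact abs_pos.2 hdet0
  have hDsq : D ^ 2 ≤ 4 * (T1 r / 2) ^ ((r - 1) / 2) := by rw [hD, sq_abs]; exact hdet
  rw [← hD] at hcore
  rw [hd2] at hDsq hcore
  set L := Real.log p - Real.log 2 with hL
  have hL0 : 0 < L := by
    have h46 := log_ge_46 hp20
    have := Real.log_two_lt_d9
    rw [hL]; linarith
  have hd0 : (0 : ℝ) < d := by exact_mod_cast hd1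
  have hfac0 : (0 : ℝ) < d.factorial := by exact_mod_cast d.factorial_pos
  -- logarithms
  have hlogD : 2 * Real.log D ≤ Real.log 4 + d * Real.log (T1 r / 2) := by
    have h := Real.log_le_log (by positivity) hDsq
    rw [Real.log_pow, Real.log_mul (by norm_num) (by positivity), Real.log_pow] at h
    exact_mod_cast h
  have hq : (0 : ℝ) < 4 * d * L + 1 := by positivity
  have hx0 : (0 : ℝ) < (2 * Real.exp N) ^ i := by positivity
  have hlc := Real.log_le_log (by positivity) hcore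
  have e1 : Real.log ((2 * (d : ℝ) * L) ^ d) = d * Real.log (2 * d * L) := Real.log_pow _ _
  have e2 : Real.log (2 * (2 * Real.exp N) ^ i * (4 * d * L + 1) * (d.factorial * D)) =
      Real.log 2 + i * (Real.log 2 + N) + Real.log (4 * d * L + 1) +
        (Real.log d.factorial + Real.log D) := by
    rw [Real.log_mul (mul_pos (mul_pos (by norm_num) hx0) hq).ne' (mul_pos hfac0 hD0).ne',
      Real.log_mul (mul_pos (by norm_num) hx0).ne' hq.ne', Real.log_mul (by norm_num) hx0.ne',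
      Real.log_pow, Real.log_mul (by norm_num) (Real.exp_pos N).ne', Real.log_exp,
      Real.log_mul hfac0.ne' hD0.ne']
  rw [e1, e2] at hlc
  have hf := log_fac hd1
  linarith

theorem final {n r p i : ℕ} (hr : r.Prime) (hr2 : r ≠ 2) (hn : n.Coprime r) (hp : p.Prime)
    (hpr : p.Coprime r) (hpn : p ∣ n) (hpow : ∀ j : ℕ, n ≠ p ^ j) (hp20 : 10 ^ 20 ≤ p)
    (hi : i = (Subgroup.closure
      {-1, ZMod.unitOfCoprime n hn, ZMod.unitOfCoprime p hpr}).index)
    (h1 : 3 * i * Real.log (n / p) * Real.log p ≤ r)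
    (h2 : (r : ℝ) ≤ 13 * Real.log p ^ 2 ∨ i * Real.log (n / p) * r ≤ 12 * Real.log p ^ 3) :
    ¬ ((X ^ r - 1 : (ZMod n)[X]) ∣ (X - 1) ^ n - (X ^ n - 1)) := by
  rcases le_or_gt (r : ℝ) (13 * Real.log p ^ 2) with h | h
  · exact small_r hr hr2 hn hp hpr hpn hpow hp20 hi h1 h
  · have h3 : i * Real.log (n / p) * r ≤ 12 * Real.log p ^ 3 := by
      rcases h2 with h2 | h2
      · exact absurd h2 (not_le.2 h)
      · exact h2
    refine AKW.final hr hr2 hn hp hpr hpn hpow hp20 hi ?_ h3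
    have hβ : (0 : ℝ) < Real.log p := lt_of_lt_of_le (by norm_num) (log_ge_46 hp20)
    have hr0 : (0 : ℝ) < r := by exact_mod_cast hr.pos
    -- `x = i log (n / p)`, `x r ≤ 12 β ^ 3`, `r > 13 β ^ 2`, so `x ≤ β`
    set β := Real.log p with hβd
    set x := (i : ℝ) * Real.log (n / p) with hx
    have hxβ : x ≤ β := by
      by_contra hc
      rw [not_le] at hc
      nlinarith [mul_pos hβ hβ, mul_pos (mul_pos hβ hβ) hβ]
    have e : 6 * (i : ℝ) * Real.log (n / p) * β = 6 * x * β := by rw [hx]; ring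
    rw [e]
    nlinarith [mul_pos hβ hβ]

end AKX
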