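import Pool.Agent.AKX.Defs
import Pool.Agent.AKW.Grp

/-!
# AKX, module Grp: few classes modulo `p`, for exponent vectors (helper19)

PROOF.  As `AKW.card_G` (module `Pool/Agent/AKW/Grp.lean`, copy it): `AKW.card_le` with `Γ = (ZMod r)ˣ`, `par e = ∑ k, e k`,
`v e a = aeval (z ^ a.val) (CE r e)`, `E = 2 * (u - v)`.  All the facts follow from the case of one factor,
`CS r {j} = Lam r j`, `j = k + 1 ∈ Icc 1 ((r - 1) / 2)`:
* `h1`: `AKW.pow_E` with `S = {j}` gives `(aeval (z ^ a.val) (Lam r j)) ^ E = 1`; take the product of the `e k`-th powers.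
* `h2`: `h = ± w`, `w = n ^ a' * p ^ b'` (`mem_span`, `intro_np`).  `aeval (z ^ (a * h).val) (Lam r j) =
  s * (aeval (z ^ a.val) (Lam r j)) ^ w` with `s = 1` or `s = -1` (`pow_congr` or `aeval_neg` with `S = {j}`, card `1`).  So
  `v e (a h) = s ^ (∑ k, e k) * (v e a) ^ w`, and `s ^ (∑ k, e k)` only depends on the parity.
-/

open Polynomial AKW

namespace AKX

private theorem grp_single {r j : ℕ} : CS r {j} = Lam r j := by
  unfold CS
  rw [Finset.prod_singleton]

private theorem grp_aeval {r : ℕ} {F : Type} [Field F] (x : F) (e : Fin ((r - 1) / 2) → ℕ) :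
    aeval x (CE r e) = ∏ k : Fin ((r - 1) / 2), (aeval x (Lam r ((k : ℕ) + 1))) ^ e k := by
  unfold CE
  rw [map_prod]
  exact Finset.prod_congr rfl fun k _ => map_pow _ _ _

private theorem grp_pow_prod {r : ℕ} {F : Type} [Field F] {x y s : F} {w : ℕ}
    (h : ∀ j : ℕ, aeval y (Lam r j) = s * (aeval x (Lam r j)) ^ w)
    (e : Fin ((r - 1) / 2) → ℕ) :
    aeval y (CE r e) = s ^ (∑ k, e k) * (aeval x (CE r e)) ^ w := by
  rw [grp_aeval, grp_aeval, ← Finset.prod_pow_eq_pow_sum, ← Finset.prod_pow,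
    ← Finset.prod_mul_distrib]
  refine Finset.prod_congr rfl fun k _ => ?_
  rw [h, mul_pow, ← pow_mul, ← pow_mul, mul_comm w]

theorem card_GE {n r p : ℕ} [Fact r.Prime] [Fact p.Prime] (hr2 : r ≠ 2) (hn : n.Coprime r)
    (hp : p.Coprime r) (hpn : p ∣ n)
    (hst : (X ^ r - 1 : (ZMod n)[X]) ∣ (X - 1) ^ n - (X ^ n - 1))
    {F : Type} [Field F] [CharP F p] {z : F} (hz : IsPrimitiveRoot z r) {u v : ℕ}
    (hu : Intro r F u) (hv : Intro r F v)
    (huv : (u : ZMod r) = (v : ZMod r) ∨ (u : ZMod r) = -(v : ZMod r)) (hlt : v < u)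
    (G : Finset (Fin ((r - 1) / 2) → ℕ))
    (h3 : ∀ e ∈ G, ∀ e' ∈ G, (∀ a : (ZMod r)ˣ,
      aeval (z ^ (a : ZMod r).val) (CE r e) = aeval (z ^ (a : ZMod r).val) (CE r e')) → e = e') :
    G.card ≤ 2 * (2 * (u - v)) ^
      (Subgroup.closure {-1, ZMod.unitOfCoprime n hn, ZMod.unitOfCoprime p hp}).index := by
  have hr : r.Prime := Fact.out
  have hodd : Odd r := hr.odd_of_ne_two hr2
  have hzr : z ^ r = 1 := hz.pow_eq_one
  refine card_le _ G (fun e => ∑ k, e k)
    (fun e (a : (ZMod r)ˣ) => aeval (z ^ (a : ZMod r).val) (CE r e)) (by omega) ?_ ?_ h3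
  · intro e _ a
    show (aeval (z ^ (a : ZMod r).val) (CE r e)) ^ (2 * (u - v)) = 1
    rw [grp_aeval, ← Finset.prod_pow]
    refine Finset.prod_eq_one fun k _ => ?_
    have hk : ({(k : ℕ) + 1} : Finset ℕ) ⊆ Finset.Icc 1 ((r - 1) / 2) := by
      intro j hj
      have hj' : j = (k : ℕ) + 1 := Finset.mem_singleton.1 hj
      have hk2 := k.2
      rw [Finset.mem_Icc]
      omega
    have h := pow_E hr hr2 hz hu hv huv hlt hk a
    rw [grp_single] at h
    rw [← pow_mul, mul_comm, pow_mul, h, one_pow]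
  · intro h hh e _ e' _ hpar a hval
    obtain ⟨a', b', hw⟩ := mem_span hn hp hh
    set w := n ^ a' * p ^ b' with hwd
    have hI : Intro r F w := intro_np hpn hst a' b'
    have hx : (z ^ (a : ZMod r).val) ^ r = 1 := by
      rw [← pow_mul, mul_comm, pow_mul, hzr, one_pow]
    have hcast : (((a * h : (ZMod r)ˣ) : ZMod r).val : ZMod r) = (a : ZMod r) * (h : ZMod r) := by
      rw [ZMod.natCast_zmod_val, Units.val_mul]
    have hcast2 : (((a : ZMod r).val * w : ℕ) : ZMod r) = (a : ZMod r) * (w : ZMod r) := by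
      rw [Nat.cast_mul, ZMod.natCast_zmod_val]
    have hL : ∃ s : F, (s = 1 ∨ s = -1) ∧ ∀ j : ℕ,
        aeval (z ^ ((a * h : (ZMod r)ˣ) : ZMod r).val) (Lam r j)
          = s * (aeval (z ^ (a : ZMod r).val) (Lam r j)) ^ w := by
      rcases hw with hw | hw
      · refine ⟨1, Or.inl rfl, fun j => ?_⟩
        have e1 : z ^ ((a * h : (ZMod r)ˣ) : ZMod r).val = (z ^ (a : ZMod r).val) ^ w := by
          rw [← pow_mul]
          apply pow_congr hzr
          rw [hcast, hcast2, hw]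
        have e2 := hI _ hx {j}
        rw [grp_single] at e2
        rw [e1, ← e2, one_mul]
      · refine ⟨-1, Or.inr rfl, fun j => ?_⟩
        have e2 := hI _ hx {j}
        have e3 : aeval (z ^ ((a * h : (ZMod r)ˣ) : ZMod r).val) (CS r {j})
            = (-1) ^ ({j} : Finset ℕ).card * aeval (z ^ ((a : ZMod r).val * w)) (CS r {j}) := by
          apply aeval_neg hodd hzr
          rw [hcast, hcast2, hw, mul_neg]
        rw [Finset.card_singleton, pow_one, pow_mul, ← e2, grp_single] at e3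
        exact e3
    obtain ⟨s, hs, hL⟩ := hL
    show aeval (z ^ ((a * h : (ZMod r)ˣ) : ZMod r).val) (CE r e)
      = aeval (z ^ ((a * h : (ZMod r)ˣ) : ZMod r).val) (CE r e')
    rw [grp_pow_prod hL e, grp_pow_prod hL e', show aeval (z ^ (a : ZMod r).val) (CE r e)
      = aeval (z ^ (a : ZMod r).val) (CE r e') from hval]
    have hpar' : (∑ k, e k) % 2 = (∑ k, e' k) % 2 := hpar
    have hss : s ^ (∑ k, e k) = s ^ (∑ k, e' k) := by
      rcases hs with rfl | rfl
      · rw [one_pow, one_pow]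
      · rw [neg_one_pow_eq_pow_mod_two, hpar', ← neg_one_pow_eq_pow_mod_two]
    rw [hss]

end AKX
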